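import Pool.Agent.Helper460_CSP.Vec

set_option autoImplicit false
set_option linter.unusedSectionVars false
set_option linter.unusedSimpArgs false
set_option linter.unusedVariables false
set_option linter.unnecessarySeqFocus false

namespace Pool.Agent.Helper460_CSP

open Matrix

variable {n : ℕ}

/-- The matrix with the first row `(1, u)`, the first column `(1, 0)` and the block `B`. -/
def TM (u : Fin n → ℤ) (B : Matrix (Fin n) (Fin n) ℤ) : Matrix (Fin (n + 1)) (Fin (n + 1)) ℤ :=
  fun i j => Fin.cases (Fin.cases 1 u j) (fun i' => Fin.cases 0 (fun j' => B i' j') j) i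

@[simp] lemma TM_00 (u : Fin n → ℤ) (B : Matrix (Fin n) (Fin n) ℤ) : TM u B 0 0 = 1 := rfl
@[simp] lemma TM_0s (u : Fin n → ℤ) (B : Matrix (Fin n) (Fin n) ℤ) (j : Fin n) :
    TM u B 0 j.succ = u j := rfl
@[simp] lemma TM_s0 (u : Fin n → ℤ) (B : Matrix (Fin n) (Fin n) ℤ) (i : Fin n) :
    TM u B i.succ 0 = 0 := rfl
@[simp] lemma TM_ss (u : Fin n → ℤ) (B : Matrix (Fin n) (Fin n) ℤ) (i j : Fin n) :
    TM u B i.succ j.succ = B i j := rfl

lemma ext4 {A B : Matrix (Fin (n + 1)) (Fin (n + 1)) ℤ} (h1 : A 0 0 = B 0 0)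
    (h2 : ∀ j : Fin n, A 0 j.succ = B 0 j.succ) (h3 : ∀ i : Fin n, A i.succ 0 = B i.succ 0)
    (h4 : ∀ i j : Fin n, A i.succ j.succ = B i.succ j.succ) : A = B := by
  ext i j
  refine Fin.cases ?_ (fun i' => ?_) i
  · refine Fin.cases ?_ (fun j' => ?_) j
    · exact h1
    · exact h2 j'
  · refine Fin.cases ?_ (fun j' => ?_) j
    · exact h3 i'
    · exact h4 i' j'

lemma TM_mul (u u' : Fin n → ℤ) (B B' : Matrix (Fin n) (Fin n) ℤ) :
    TM u B * TM u' B' = TM (u' + u ᵥ* B') (B * B') := by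
  apply ext4
  · rw [Matrix.mul_apply, Fin.sum_univ_succ]; simp
  · intro j
    rw [Matrix.mul_apply, Fin.sum_univ_succ]
    simp [vecMul, dotProduct]
  · intro i
    rw [Matrix.mul_apply, Fin.sum_univ_succ]; simp
  · intro i j
    rw [Matrix.mul_apply, Fin.sum_univ_succ]
    simp [Matrix.mul_apply]

lemma TM_one : TM (0 : Fin n → ℤ) 1 = 1 := by
  apply ext4
  · simp
  · intro j; simp [Matrix.one_apply, (Fin.succ_ne_zero j).symm]
  · intro i; simp [Matrix.one_apply, Fin.succ_ne_zero i]
  · intro i j; simp [Matrix.one_apply]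

lemma det_TM (u : Fin n → ℤ) (B : Matrix (Fin n) (Fin n) ℤ) : (TM u B).det = B.det := by
  rw [Matrix.det_succ_column_zero, Fin.sum_univ_succ]
  simp only [TM_00, TM_s0, mul_zero, zero_mul, Finset.sum_const_zero, add_zero]
  simp only [Fin.val_zero, pow_zero, one_mul]
  congr 1

/-- The element with the first row `(1, u)`, the first column `(1, 0)` and the block `B`. -/
def TS (u : Fin n → ℤ) (B : SpecialLinearGroup (Fin n) ℤ) : SpecialLinearGroup (Fin (n + 1)) ℤ :=
  ⟨TM u (mt B), by rw [det_TM]; exact B.2⟩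

lemma mt_TS (u : Fin n → ℤ) (B : SpecialLinearGroup (Fin n) ℤ) : mt (TS u B) = TM u (mt B) := rfl

/-- The embedding. -/
def emb : SpecialLinearGroup (Fin n) ℤ →* SpecialLinearGroup (Fin (n + 1)) ℤ where
  toFun := fun B => TS 0 B
  map_one' := mt_inj (by rw [mt_TS, mt_one, TM_one, mt_one])
  map_mul' := fun A B => mt_inj (by
    rw [mt_TS, mt_mul, mt_mul, mt_TS, mt_TS, TM_mul, zero_vecMul, add_zero])

lemma TS_eq (u : Fin n → ℤ) (B : SpecialLinearGroup (Fin n) ℤ) : TS u B = emb B * TS u 1 :=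
  mt_inj (by
    show TM u (mt B) = TM 0 (mt B) * TM u (mt 1)
    rw [TM_mul, zero_vecMul, add_zero, mt_one, mul_one])

lemma TS_add (u u' : Fin n → ℤ) : TS (u + u') 1 = TS u 1 * TS u' 1 :=
  mt_inj (by
    show TM (u + u') (mt 1) = TM u (mt 1) * TM u' (mt 1)
    rw [TM_mul, mt_one, vecMul_one, mul_one, add_comm u' u])

lemma TS_single (j : Fin n) (t : ℤ) :
    TS (Pi.single j t) 1 = tv 0 j.succ (Fin.succ_ne_zero j).symm t := by
  apply mt_inj
  show TM (Pi.single j t) 1 = transvection 0 j.succ t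
  apply ext4
  · simp [transvection, Matrix.single, Fin.succ_ne_zero]
  · intro k
    rw [TM_0s]
    simp only [transvection, Matrix.add_apply, Matrix.one_apply, (Fin.succ_ne_zero k).symm,
      if_false, zero_add, Matrix.single_apply, Fin.succ_inj, true_and, Pi.single_apply]
    by_cases h : k = j
    · rw [if_pos h, if_pos h.symm]
    · rw [if_neg h, if_neg (Ne.symm h)]
  · intro i; simp [transvection, Matrix.single, Fin.succ_ne_zero, Matrix.one_apply]
  · intro i k
    simp only [TM_ss, transvection, Matrix.add_apply, Matrix.one_apply, Fin.succ_inj,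
      Matrix.single_apply, (Fin.succ_ne_zero i).symm, false_and, if_false, add_zero]

lemma TS_zero : TS (0 : Fin n → ℤ) 1 = 1 := mt_inj (by rw [mt_TS, mt_one, TM_one, mt_one])

lemma TS_El {M : ℤ} {u : Fin n → ℤ} (hu : ∀ j, M ∣ u j) : TS u 1 ∈ El (Fin (n + 1)) M := by
  have h : ∀ s : Finset (Fin n), TS (∑ j ∈ s, Pi.single j (u j)) 1 ∈ El (Fin (n + 1)) M := by
    intro s
    induction s using Finset.induction_on with
    | empty => rw [Finset.sum_empty, TS_zero]; exact one_mem _
    | insert a s ha ih =>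
      rw [Finset.sum_insert ha, TS_add]
      refine mul_mem ?_ ih
      rw [TS_single]
      exact tv_El _ _ _ (hu a)
  have h2 := h Finset.univ
  rwa [Finset.univ_sum_single] at h2

lemma emb_tv (i j : Fin n) (h : i ≠ j) (t : ℤ) :
    emb (tv i j h t) = tv i.succ j.succ (fun h' => h (Fin.succ_inj.1 h')) t := by
  apply mt_inj
  show TM 0 (transvection i j t) = transvection i.succ j.succ t
  apply ext4
  · simp [transvection, Matrix.single, Fin.succ_ne_zero]
  · intro k; simp [transvection, Matrix.single, Fin.succ_ne_zero, Matrix.one_apply,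
      (Fin.succ_ne_zero k).symm]
  · intro k; simp [transvection, Matrix.single, Fin.succ_ne_zero, Matrix.one_apply]
  · intro r s; simp [transvection, Matrix.single, Matrix.one_apply]

lemma emb_El {M : ℤ} {B : SpecialLinearGroup (Fin n) ℤ} (h : B ∈ El (Fin n) M) :
    emb B ∈ El (Fin (n + 1)) M := by
  have h1 : El (Fin n) M ≤ (El (Fin (n + 1)) M).comap emb := by
    apply El_le
    intro i j hij
    rw [Subgroup.mem_comap, emb_tv]
    exact tv_El _ _ _ (dvd_refl M)
  exact h1 h

/-- **Reduction of the size.** -/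
theorem El_reduce {M : ℤ} (h2 : 2 ≤ n) (A : SpecialLinearGroup (Fin (n + 1)) ℤ) (hA : Cgr M A) :
    ∃ B : SpecialLinearGroup (Fin n) ℤ, Cgr M B ∧
      (emb B ∈ El (Fin (n + 1)) M → A ∈ El (Fin (n + 1)) M) := by
  have hcol : ∀ (C : SpecialLinearGroup (Fin (n + 1)) ℤ) (k : Fin (n + 1)),
      av C (Pi.single 0 1) k = mt C k 0 := by
    intro C k
    unfold av
    rw [mulVec_single_one]
    rfl
  have huni : Uni (av A (Pi.single 0 1)) := by
    apply Uni.av
    refine ⟨Pi.single 0 1, ?_⟩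
    rw [Finset.sum_eq_single (0 : Fin (n + 1))]
    · rw [Pi.single_eq_same, mul_one]
    · intro b _ hb
      rw [Pi.single_eq_of_ne hb, zero_mul]
    · intro h
      exact absurd (Finset.mem_univ _) h
  obtain ⟨ν, hν, h5⟩ := El_trans (by rw [Fintype.card_fin]; omega) 0 M _ (av A (Pi.single 0 1))
    huni (by
      have := hA 0 0
      rw [hcol]
      simpa using this) (by
      intro s hs
      have := hA s 0
      rw [Matrix.one_apply_ne hs, sub_zero] at this
      rw [hcol]
      exact this) rfl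
  have hA' : Cgr M (ν * A) := (El_cgr hν).mul hA
  have hc0 : ∀ k, mt (ν * A) k 0 = (Pi.single 0 1 : Fin (n + 1) → ℤ) k := by
    intro k
    rw [← hcol, av_mul, h5]
  let u : Fin n → ℤ := fun j => mt (ν * A) 0 j.succ
  let Bm : Matrix (Fin n) (Fin n) ℤ := fun i j => mt (ν * A) i.succ j.succ
  have hTM : mt (ν * A) = TM u Bm := by
    apply ext4
    · rw [hc0]; simp
    · intro j; rfl
    · intro i
      rw [hc0, TM_s0]
      exact Pi.single_eq_of_ne (Fin.succ_ne_zero i) 1
    · intro i j; rfl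
  have hdet : Bm.det = 1 := by
    rw [← det_TM u Bm, ← hTM]
    exact (ν * A).2
  let B : SpecialLinearGroup (Fin n) ℤ := ⟨Bm, hdet⟩
  have hB : ν * A = TS u B := mt_inj hTM
  refine ⟨B, ?_, fun h => ?_⟩
  · intro i j
    have := hA' i.succ j.succ
    have e : (1 : Matrix (Fin (n + 1)) (Fin (n + 1)) ℤ) i.succ j.succ =
        (1 : Matrix (Fin n) (Fin n) ℤ) i j := by simp [Matrix.one_apply]
    rw [e] at this
    exact this
  · have h6 : ν * A ∈ El (Fin (n + 1)) M := by
      rw [hB, TS_eq]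
      refine mul_mem h (TS_El fun j => ?_)
      have := hA' 0 j.succ
      rw [Matrix.one_apply_ne (Fin.succ_ne_zero j).symm, sub_zero] at this
      exact this
    have h7 := mul_mem (inv_mem hν) h6
    rwa [inv_mul_cancel_left] at h7

/-- **The theorem of Bass, Lazard, Serre and Mennicke.** -/
theorem bls {M : ℤ} (hM : M ≠ 0) : ∀ (n : ℕ) (A : SpecialLinearGroup (Fin (n + 3)) ℤ), Cgr M A →
    A ∈ El (Fin (n + 3)) M := by
  intro n
  induction n with
  | zero =>
    intro A hA
    obtain ⟨B, hB, h⟩ := El_reduce (n := 2) le_rfl A hA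
    apply h
    have hdet := B.2
    have hm : ∀ i j, mt B i j = B.1 i j := fun _ _ => rfl
    rw [Matrix.det_fin_two] at hdet
    have e : emb B = B23 (B.1 0 0) (B.1 0 1) (B.1 1 0) (B.1 1 1) hdet := by
      apply mt_inj
      show TM 0 (mt B) = !![1, 0, 0; 0, B.1 0 0, B.1 0 1; 0, B.1 1 0, B.1 1 1]
      ext i j
      fin_cases i <;> fin_cases j <;> rfl
    rw [e]
    have h00 := hB 0 0
    have h01 := hB 0 1
    have h10 := hB 1 0
    have h11 := hB 1 1
    simp [hm] at h00 h01 h10 h11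
    have hN : ∀ (i j : Fin 3) (h : i ≠ j), tv i j h M ∈ El (Fin 3) M :=
      fun i j h => tv_El i j h (dvd_refl M)
    have h5 := cl_B23 hN _ _ _ _ hdet h00 h01 h10 h11
    have h6 := B12_mem hN hM hdet h00 h01 h10 h11
    rw [← QuotientGroup.ker_mk' (El (Fin 3) M), MonoidHom.mem_ker] at h6
    rw [h6] at h5
    show B23 _ _ _ _ hdet ∈ El (Fin 3) M
    rw [← QuotientGroup.ker_mk' (El (Fin 3) M), MonoidHom.mem_ker]
    exact h5
  | succ n ih =>
    intro A hA
    obtain ⟨B, hB, h⟩ := El_reduce (n := n + 3) (by omega) A hA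
    exact h (emb_El (ih B hB))

end Pool.Agent.Helper460_CSP
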