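import Pool.Agent.Helper460_CSP.Sur

set_option autoImplicit false
set_option linter.unusedSectionVars false
set_option linter.unusedSimpArgs false
set_option linter.unusedVariables false
set_option linter.unnecessarySeqFocus false

namespace Pool.Agent.Helper460_CSP

open Pool.Agent.Helper460_OutF
open FreeGroup (of)
open Matrix hiding of zpow_neg
open scoped commutatorElement

section VK

variable (ι : Type) (H : Type) [Group H]

/-- The common kernel of the homomorphisms to `H`. -/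
def VK : Subgroup (FreeGroup ι) := ⨅ f : FreeGroup ι →* H, f.ker

variable {ι H}

lemma mem_VK {x : FreeGroup ι} : x ∈ VK ι H ↔ ∀ f : FreeGroup ι →* H, f x = 1 := by
  unfold VK
  rw [Subgroup.mem_iInf]
  exact Iff.rfl

instance VK_char : (VK ι H).Characteristic := by
  rw [Subgroup.characteristic_iff_le_comap]
  intro φ x hx
  rw [Subgroup.mem_comap, mem_VK]
  intro f
  exact mem_VK.1 hx (f.comp φ.toMonoidHom)

lemma VK_finite [Finite ι] [Finite H] : (VK ι H).FiniteIndex := by
  have h1 : Finite (FreeGroup ι →* H) := Finite.of_equiv _ (FreeGroup.lift (α := ι) (β := H))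
  unfold VK
  apply Subgroup.finiteIndex_iInf
  intro f
  exact Subgroup.finiteIndex_ker f

end VK

namespace Hs

variable {R : Type} [CommRing R]

lemma pow_all (x : Hs R) (n : ℕ) :
    x ^ n = ⟨n * x.a, n * x.b, n * x.c + (n.choose 2 : ℕ) * (x.a * x.b)⟩ := by
  induction n with
  | zero => ext <;> simp
  | succ n ih =>
    rw [pow_succ, ih]
    ext
    · simp; ring
    · simp; ring
    · simp only [mul_c, Nat.choose_succ_succ' n 1, Nat.choose_one_right]
      push_cast
      ring

lemma pow_four {M : ℕ} (x : Hs (ZMod M)) : x ^ (4 * M) = 1 := by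
  rw [pow_all]
  have h1 : ((4 * M : ℕ) : ZMod M) = 0 := by simp
  have h2 : (((4 * M).choose 2 : ℕ) : ZMod M) = 0 := by
    have e : (4 * M).choose 2 = M * (2 * (4 * M - 1)) := by
      rw [Nat.choose_two_right]
      have : 4 * M * (4 * M - 1) = (M * (2 * (4 * M - 1))) * 2 := by ring
      rw [this, Nat.mul_div_cancel _ (by norm_num)]
    rw [e]
    simp
  rw [h1, h2]
  ext <;> simp

end Hs

section main

variable {ι : Type} [DecidableEq ι] [Fintype ι]

/-- Powers of elementary automorphisms do not change the homomorphisms to the Heisenberg group. -/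
lemma N2_triv {M : ℕ} {b : MulAut (FreeGroup ι)} (hb : b ∈ N2 ι ((4 * M : ℕ) : ℤ)) :
    ∀ (f : FreeGroup ι →* Hs (ZMod M)) (x : FreeGroup ι), f (b x) = f x := by
  let N : Subgroup (MulAut (FreeGroup ι)) :=
    { carrier := {b | ∀ (f : FreeGroup ι →* Hs (ZMod M)) (x : FreeGroup ι), f (b x) = f x}
      mul_mem' := by
        intro a b ha hb f x
        rw [MulAut.mul_apply, ha f, hb f]
      one_mem' := fun f x => rfl
      inv_mem' := by
        intro a ha f x
        rw [← ha f (a⁻¹ x), MulAut.apply_inv_self] }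
  have hN : N.Normal := by
    refine ⟨fun a ha g f x => ?_⟩
    have h1 := ha (f.comp g.toMonoidHom) (g⁻¹ x)
    have h2 : f (g (a (g⁻¹ x))) = f (g (g⁻¹ x)) := h1
    rw [MulAut.mul_apply, MulAut.mul_apply, h2, MulAut.apply_inv_self]
  have h1 : N2 ι ((4 * M : ℕ) : ℤ) ≤ N := by
    apply Subgroup.normalClosure_le_normal
    rintro _ ⟨i, j, hij, rfl⟩ f x
    have e : f.comp (Ea i j ((4 * M : ℕ) : ℤ)).toMonoidHom = f := by
      ext1 l
      show f (Ea i j ((4 * M : ℕ) : ℤ) (of l)) = f (of l)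
      by_cases hl : l = i
      · subst hl
        rw [Ea_self hij, zpow_natCast, map_mul, map_pow, Hs.pow_four, mul_one]
      · rw [Ea_ne hl]
    exact DFunLike.congr_fun e x
  exact h1 hb

lemma N2_le_N1 {M : ℕ} (hM : 0 < M) : N2 ι ((4 * M : ℕ) : ℤ) ≤ N1 ι M := by
  apply Subgroup.normalClosure_le_normal
  rintro _ ⟨i, j, hij, rfl⟩
  have e : Ea i j ((4 * M : ℕ) : ℤ) = ((rr i (of j)) ^ M) ^ 4 := by
    unfold Ea
    rw [zpow_natCast, ← pow_mul, mul_comm]
  rw [e]
  exact pow_mem ((N1_step hM).rrp i j hij) 4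

/-- The finite group defining the congruence condition. -/
abbrev HM (M : ℕ) : Type := Hs (ZMod M) × Multiplicative (ZMod (4 * M))

variable (ι) in
/-- The automorphisms which act on the quotient as an inner automorphism. -/
def ActsInner (K : Subgroup (FreeGroup ι)) (ψ : MulAut (FreeGroup ι)) : Prop :=
  ∃ g : FreeGroup ι, ∀ x : FreeGroup ι, ψ x * (g * x * g⁻¹)⁻¹ ∈ K

theorem cong_N1 {n M : ℕ} (hM : 0 < M) {α : MulAut (FreeGroup (Fin (n + 3)))}
    (h : ∃ g : FreeGroup (Fin (n + 3)), ∀ x : FreeGroup (Fin (n + 3)),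
      α x * (g * x * g⁻¹)⁻¹ ∈ VK (Fin (n + 3)) (HM M)) : α ∈ N1 (Fin (n + 3)) M := by
  obtain ⟨g, hg⟩ := h
  -- remove the inner automorphism
  obtain ⟨α', hα'⟩ : ∃ α' : MulAut (FreeGroup (Fin (n + 3))), α' = MulAut.conj g⁻¹ * α := ⟨_, rfl⟩
  have hα : α = MulAut.conj g * α' := by
    rw [hα', ← mul_assoc, ← map_mul, mul_inv_cancel, map_one, one_mul]
  have key : ∀ (f : FreeGroup (Fin (n + 3)) →* HM M) (x : FreeGroup (Fin (n + 3))),
      f (α' x) = f x := by
    intro f x
    have h1 := mem_VK.1 (hg x) f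
    rw [map_mul, map_inv, mul_inv_eq_one] at h1
    rw [hα', MulAut.mul_apply, MulAut.conj_apply, inv_inv, map_mul, map_mul, h1, map_mul, map_mul,
      map_inv]
    group
  have key1 : ∀ (f : FreeGroup (Fin (n + 3)) →* Hs (ZMod M)) (x : FreeGroup (Fin (n + 3))),
      f (α' x) = f x := by
    intro f x
    exact congrArg Prod.fst (key (f.prod 1) x)
  have key2 : ∀ (f : FreeGroup (Fin (n + 3)) →* Multiplicative (ZMod (4 * M)))
      (x : FreeGroup (Fin (n + 3))), f (α' x) = f x := by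
    intro f x
    exact congrArg Prod.snd (key ((1 : FreeGroup (Fin (n + 3)) →* Hs (ZMod M)).prod f) x)
  -- the matrix
  have hcgr : ∀ k j, ((4 * M : ℕ) : ℤ) ∣
      mA α' k j - (1 : Matrix (Fin (n + 3)) (Fin (n + 3)) ℤ) k j := by
    intro k j
    let f : FreeGroup (Fin (n + 3)) →* Multiplicative (ZMod (4 * M)) :=
      { toFun := fun w => Multiplicative.ofAdd ((xv w k : ℤ) : ZMod (4 * M))
        map_one' := by rw [xv_one, Pi.zero_apply, Int.cast_zero]; rfl
        map_mul' := by
          intro a b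
          rw [xv_mul, Pi.add_apply, Int.cast_add]
          rfl }
    have h1 : ((xv (α' (of j)) k : ℤ) : ZMod (4 * M)) = ((xv (of j) k : ℤ) : ZMod (4 * M)) :=
      key2 f (of j)
    rw [xv_of, ← sub_eq_zero, ← Int.cast_sub, ZMod.intCast_zmod_eq_zero_iff_dvd] at h1
    rw [Matrix.one_apply, ← Pi.single_apply]
    exact h1
  have hdet : (mA α').det = 1 := by
    have h1 : IsUnit (mA α').det := by
      have h2 : (mA α').det * (mA α'⁻¹).det = 1 := by
        rw [← Matrix.det_mul, ← mA_mul, mul_inv_cancel, mA_one, Matrix.det_one]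
      exact IsUnit.of_mul_eq_one _ h2
    have h3 : (((mA α').det : ℤ) : ZMod (4 * M)) = 1 := by
      have h4 := (Int.castRingHom (ZMod (4 * M))).map_det (mA α')
      have h5 : (Int.castRingHom (ZMod (4 * M))).mapMatrix (mA α') = 1 := by
        ext k j
        have h6 := (ZMod.intCast_zmod_eq_zero_iff_dvd _ _).2 (hcgr k j)
        rw [Int.cast_sub, sub_eq_zero] at h6
        show ((mA α' k j : ℤ) : ZMod (4 * M)) = _
        rw [h6, Matrix.one_apply, Matrix.one_apply]
        split_ifs <;> simp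
      rw [h5, Matrix.det_one] at h4
      exact h4
    rcases Int.isUnit_iff.1 h1 with h2 | h2
    · exact h2
    · exfalso
      rw [h2] at h3
      have h4 : (((-2 : ℤ)) : ZMod (4 * M)) = 0 := by
        have : ((-2 : ℤ) : ZMod (4 * M)) = ((-1 : ℤ) : ZMod (4 * M)) - 1 := by push_cast; ring
        rw [this, h3, sub_self]
      have h5 := (ZMod.intCast_zmod_eq_zero_iff_dvd _ _).1 h4
      have h6 := Int.le_of_dvd (by norm_num) ((dvd_neg).2 h5)
      push_cast at h6
      omega
  obtain ⟨β, hβ, hβA⟩ := El_lift (bls (M := ((4 * M : ℕ) : ℤ)) (by positivity) n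
    ⟨mA α', hdet⟩ hcgr)
  have hβA' : mA β = mA α' := hβA
  have hδ : β⁻¹ * α' ∈ IA (FreeGroup (Fin (n + 3))) := by
    rw [mem_IA_iff, mA_mul, ← hβA', ← mA_mul, inv_mul_cancel, mA_one]
  have hδ1 : β⁻¹ * α' ∈ N1 (Fin (n + 3)) M := by
    apply johnson hM hδ
    intro f x
    rw [MulAut.mul_apply, N2_triv (inv_mem hβ) f, key1]
  have h1 := mul_mem (N2_le_N1 hM hβ) hδ1
  rw [mul_inv_cancel_left] at h1
  rw [hα]
  exact mul_mem ((N1_step hM).inn g) h1

lemma VK_class2 {n M : ℕ} (x y z : FreeGroup (Fin n)) :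
    ⁅⁅x, y⁆, z⁆ ∈ VK (Fin n) (HM M) := by
  rw [mem_VK]
  intro f
  rw [map_commutatorElement, map_commutatorElement]
  have h1 : ∀ a b c : HM M, ⁅⁅a, b⁆, c⁆ = 1 := by
    rintro ⟨a, a'⟩ ⟨b, b'⟩ ⟨c, c'⟩
    apply Prod.ext
    · show ⁅⁅a, b⁆, c⁆ = 1
      rw [Hs.comm_eq ⁅a, b⁆ c, Hs.comm_eq a b]
      ext <;> simp
    · show ⁅⁅a', b'⁆, c'⁆ = 1
      rw [commutatorElement_eq_one_iff_commute]
      exact Commute.all _ _
  exact h1 _ _ _

end main

end Pool.Agent.Helper460_CSP
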