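import Pool.Agent.Helper460_CSP.SmallIdx

set_option autoImplicit false
set_option linter.unusedSectionVars false
set_option linter.unusedSimpArgs false
set_option linter.unusedVariables false
set_option linter.unnecessarySeqFocus false

namespace Pool.Agent.Helper460_CSP

open Pool.Agent.Helper460_OutF
open FreeGroup (of)
open scoped commutatorElement

section

variable {ι : Type} [DecidableEq ι]

/-- Products of the letters in `S` with position less than `l`. -/
def wd (e : ℕ → ι) (S : Finset ℕ) : ℕ → FreeGroup ι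
  | 0 => 1
  | l + 1 => wd e S l * (if l ∈ S then of (e l) else 1)

lemma kil_wd_ne {e : ℕ → ι} {k : ι} {S : Finset ℕ} {n : ℕ} (h : ∀ l < n, l ∈ S → e l ≠ k) :
    kil k (wd e S n) = wd e S n := by
  induction n with
  | zero => simp [wd]
  | succ n ih =>
    rw [wd, map_mul, ih (fun l hl => h l (by omega))]
    split_ifs with hn
    · rw [kil_ne (h n (by omega) hn)]
    · rw [map_one]

lemma wd_split {e : ℕ → ι} {S : Finset ℕ} {l n : ℕ} (hl : l < n) (hlS : l ∈ S)
    (he : ∀ a < n, e a = e l → a = l) :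
    ∃ b : FreeGroup ι, (∀ k, (∀ a < n, e a ≠ k) → kil k b = b) ∧ kil (e l) b = b ∧
      wd e S n = wd e S l * of (e l) * b := by
  induction n with
  | zero => omega
  | succ n ih =>
    rcases Nat.lt_or_ge l n with h | h
    · obtain ⟨b, hb1, hb2, hb3⟩ := ih h (fun a ha => he a (by omega))
      refine ⟨b * (if n ∈ S then of (e n) else 1), ?_, ?_, ?_⟩
      · intro k hk
        rw [map_mul, hb1 k (fun a ha => hk a (by omega))]
        split_ifs
        · rw [kil_ne (hk n (by omega))]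
        · rw [map_one]
      · rw [map_mul, hb2]
        split_ifs
        · rw [kil_ne (fun h' => by have := he n (by omega) h'; omega)]
        · rw [map_one]
      · rw [wd, hb3]; group
    · obtain rfl : l = n := by omega
      refine ⟨1, fun k _ => map_one _, map_one _, ?_⟩
      rw [wd, if_pos hlS, mul_one]

variable {G : Type} [Group G]

/-- `θ` kills `x_{i₀}` and its kernel is stable under the transvections away from `i₀`. -/
structure TrInv (i₀ : ι) (θ : FreeGroup ι →* G) : Prop where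
  inv : ∀ k u, k ≠ i₀ → kil i₀ u = u → ∀ x y, θ x = θ y → θ (rr k u x) = θ (rr k u y)

section

variable {i₀ : ι} {θ : FreeGroup ι →* G} (h : TrInv i₀ θ)

include h

/-- First step of the pigeonhole argument. -/
lemma TrInv.step1 {k : ι} (hk : k ≠ i₀) {w w' a a' : FreeGroup ι}
    (hw : kil k w = w) (hw' : kil k w' = w') (ha : kil k a = a) (ha' : kil k a' = a')
    (heq : θ (w * ⁅a, of k⁆) = θ (w' * ⁅a', of k⁆)) {u : FreeGroup ι} (hu0 : kil i₀ u = u)
    (hu : kil k u = u) : θ ⁅a'⁻¹ * a, u⁆ = 1 := by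
  have h1 := h.inv k u hk hu0 _ _ heq
  have key : ∀ {w a : FreeGroup ι}, kil k w = w → kil k a = a →
      θ (rr k u (w * ⁅a, of k⁆)) = θ (w * ⁅a, of k⁆) * θ (of k) * θ ⁅a, u⁆ * (θ (of k))⁻¹ := by
    intro w a hw ha
    rw [map_mul, map_commutatorElement, rr_fix k u hw, rr_fix k u ha, rr_self, hu]
    simp only [commutatorElement_def, map_mul, map_inv]
    group
  rw [key hw ha, key hw' ha', heq] at h1
  have h2 : θ ⁅a, u⁆ = θ ⁅a', u⁆ := by
    have := mul_right_cancel h1
    exact mul_left_cancel this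
  simp only [commutatorElement_def, map_mul, map_inv, mul_inv_rev, inv_inv] at h2 ⊢
  have h3 : θ a * θ u * (θ a)⁻¹ = θ a' * θ u * (θ a')⁻¹ := mul_right_cancel h2
  calc (θ a')⁻¹ * θ a * θ u * ((θ a)⁻¹ * θ a') * (θ u)⁻¹
      = (θ a')⁻¹ * (θ a * θ u * (θ a)⁻¹) * θ a' * (θ u)⁻¹ := by group
    _ = 1 := by rw [h3]; group

/-- Second step. -/
lemma TrInv.step2 {k l : ι} (hl : l ≠ i₀) (hlk : l ≠ k) {a' a1 b : FreeGroup ι}
    (ha'0 : kil i₀ a' = a')
    (ha'l : kil l a' = a') (ha1 : kil l a1 = a1) (hb0 : kil i₀ b = b) (hbk : kil k b = b)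
    (hbl : kil l b = b)
    (hcen : ∀ u, kil i₀ u = u → kil k u = u → θ ⁅a'⁻¹ * (a1 * of l * b), u⁆ = 1)
    {p : ι} (hp0 : p ≠ i₀) (hpk : p ≠ k) (hpl : p ≠ l) : θ ⁅of p, of l⁆ = 1 := by
  have hcomm : ∀ u, kil i₀ u = u → kil k u = u →
      Commute (θ (a'⁻¹ * (a1 * of l * b))) (θ u) := by
    intro u h1 h2
    have := hcen u h1 h2
    rw [map_commutatorElement] at this
    exact commutatorElement_eq_one_iff_commute.1 this
  have hv0 : kil i₀ (of p) = of p := kil_ne hp0
  -- the image under the transvection of `x_l` by `x_p`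
  have hcomm2 : ∀ u, kil i₀ u = u → kil k u = u →
      Commute (θ (a'⁻¹ * (a1 * (of l * of p) * b))) (θ u) := by
    intro u h1 h2
    -- write `u = α u'`
    set u' := rr l (of p)⁻¹ u with hu'
    have e0 : rr l (of p) u' = u := by
      rw [hu', map_inv, MulAut.apply_inv_self]
    have hu'0 : kil i₀ u' = u' := by
      rw [hu', (pres_rr hl.symm (by rw [map_inv, hv0])).kil, h1]
    have hu'k : kil k u' = u' := by
      rw [hu', (pres_rr hlk.symm (by rw [map_inv, kil_ne hpk])).kil, h2]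
    have h3 := (hcomm u' hu'0 hu'k).eq
    rw [← map_mul, ← map_mul] at h3
    have h4 := h.inv l (of p) hl hv0 _ _ h3
    have e1 : rr l (of p) (a'⁻¹ * (a1 * of l * b)) = a'⁻¹ * (a1 * (of l * of p) * b) := by
      rw [map_mul, map_inv, map_mul, map_mul, rr_fix l _ ha'l, rr_fix l _ ha1, rr_fix l _ hbl,
        rr_self, kil_ne hpl]
    rw [map_mul (rr l (of p)) _ u', map_mul (rr l (of p)) u', e0, e1, map_mul, map_mul θ u] at h4
    exact h4
  have hb : ∀ u, kil i₀ u = u → kil k u = u → Commute (θ (b⁻¹ * of p * b)) (θ u) := by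
    intro u h1 h2
    have e2 : θ (b⁻¹ * of p * b) = (θ (a'⁻¹ * (a1 * of l * b)))⁻¹ *
        θ (a'⁻¹ * (a1 * (of l * of p) * b)) := by
      rw [← map_inv, ← map_mul]
      congr 1
      group
    rw [e2]
    exact (hcomm u h1 h2).inv_left.mul_left (hcomm2 u h1 h2)
  have h5 := (hb (b⁻¹ * of l * b) (by rw [map_mul, map_mul, map_inv, hb0, kil_ne hl])
    (by rw [map_mul, map_mul, map_inv, hbk, kil_ne hlk])).eq
  rw [map_commutatorElement, commutatorElement_eq_one_iff_commute]
  simp only [map_mul, map_inv] at h5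
  have h6 : (θ b)⁻¹ * (θ (of p) * θ (of l)) * θ b = (θ b)⁻¹ * (θ (of l) * θ (of p)) * θ b := by
    calc (θ b)⁻¹ * (θ (of p) * θ (of l)) * θ b
        = (θ b)⁻¹ * θ (of p) * θ b * ((θ b)⁻¹ * θ (of l) * θ b) := by group
      _ = (θ b)⁻¹ * θ (of l) * θ b * ((θ b)⁻¹ * θ (of p) * θ b) := h5
      _ = (θ b)⁻¹ * (θ (of l) * θ (of p)) * θ b := by group
  exact mul_left_cancel (mul_right_cancel h6)

end

open Classical in
/-- The family of the images of products of commutators. -/
noncomputable def fam (θ : FreeGroup ι →* G) (e : ℕ → ι) : ℕ → Finset G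
  | 0 => {1}
  | k + 1 => (fam θ e k ×ˢ (Finset.range k).powerset).image
      (fun p => p.1 * θ ⁅wd e p.2 k, of (e k)⁆)

lemma fam_mem {θ : FreeGroup ι →* G} {e : ℕ → ι} {k : ℕ} {g : G} (hg : g ∈ fam θ e k) :
    ∃ w ∈ ⁅(⊤ : Subgroup (FreeGroup ι)), (⊤ : Subgroup (FreeGroup ι))⁆, θ w = g ∧
      ∀ c, (∀ a < k, e a ≠ c) → kil c w = w := by
  classical
  induction k generalizing g with
  | zero =>
    rw [fam, Finset.mem_singleton] at hg
    exact ⟨1, one_mem _, by rw [map_one, hg], fun c _ => map_one _⟩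
  | succ k ih =>
    rw [fam, Finset.mem_image] at hg
    obtain ⟨⟨g', S⟩, h1, rfl⟩ := hg
    rw [Finset.mem_product] at h1
    obtain ⟨w, hw, hwg, hwc⟩ := ih h1.1
    refine ⟨w * ⁅wd e S k, of (e k)⁆, mul_mem hw
      (Subgroup.commutator_mem_commutator (Subgroup.mem_top _) (Subgroup.mem_top _)),
      by rw [map_mul, hwg], fun c hc => ?_⟩
    rw [map_mul, hwc c (fun a ha => hc a (by omega)), map_commutatorElement,
      kil_wd_ne (fun l hl _ => hc l (by omega)), kil_ne (hc k (by omega))]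

lemma fam_card {i₀ : ι} {θ : FreeGroup ι →* G} (h : TrInv i₀ θ) {e : ℕ → ι} {m : ℕ} (hm : 3 ≤ m)
    (he : ∀ a < m, ∀ b < m, e a = e b → a = b) (he0 : ∀ a < m, e a ≠ i₀)
    (hne : ∀ p l, p ≠ i₀ → l ≠ i₀ → p ≠ l → θ ⁅of p, of l⁆ ≠ 1) {k : ℕ} (hk : k ≤ m) :
    (fam θ e k).card = 2 ^ (k * (k - 1) / 2) := by
  classical
  induction k with
  | zero => simp [fam]
  | succ k ih =>
    have hinj : Set.InjOn (fun p : G × Finset ℕ => p.1 * θ ⁅wd e p.2 k, of (e k)⁆)
        ((fam θ e k ×ˢ (Finset.range k).powerset : Finset (G × Finset ℕ)) : Set (G × Finset ℕ)) := by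
      rintro ⟨g, S⟩ h1 ⟨g', S'⟩ h2 h3
      rw [Finset.mem_coe, Finset.mem_product, Finset.mem_powerset] at h1 h2
      obtain ⟨w, -, hwg, hwc⟩ := fam_mem h1.1
      obtain ⟨w', -, hwg', hwc'⟩ := fam_mem h2.1
      have hS := h1.2
      have hS' := h2.2
      simp only at h3 hwg hwg' hS hS'
      have hkne : ∀ a < k, e a ≠ e k := fun a ha h' => by
        have := he a (by omega) k (by omega) h'
        omega
      have claim : ∀ {w w' : FreeGroup ι} {S S' : Finset ℕ}, kil (e k) w = w →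
          kil (e k) w' = w' → θ (w * ⁅wd e S k, of (e k)⁆) = θ (w' * ⁅wd e S' k, of (e k)⁆) →
          ∀ l, l < k → l ∈ S → l ∈ S' := by
        intro w w' S S' hw hw' heq l hlk hlS
        by_contra hlS'
        obtain ⟨b, hb1, hb2, hb3⟩ := wd_split (e := e) hlk hlS
          (fun a ha h' => he a (by omega) l (by omega) h')
        have hcen : ∀ u, kil i₀ u = u → kil (e k) u = u →
            θ ⁅(wd e S' k)⁻¹ * (wd e S l * of (e l) * b), u⁆ = 1 := by
          intro u hu0 huk
          rw [← hb3]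
          exact h.step1 (he0 k (by omega)) hw hw' (kil_wd_ne fun a ha _ => hkne a ha)
            (kil_wd_ne fun a ha _ => hkne a ha) heq hu0 huk
        obtain ⟨p, hp, hpl, hpk⟩ : ∃ p < m, p ≠ l ∧ p ≠ k := by
          by_cases c0 : l = 0
          · by_cases c1 : k = 1
            · exact ⟨2, by omega, by omega, by omega⟩
            · exact ⟨1, by omega, by omega, by omega⟩
          · exact ⟨0, by omega, by omega, by omega⟩
        have hlne : ∀ a < k, a ≠ l → e a ≠ e l := fun a ha hal h' =>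
          hal (he a (by omega) l (by omega) h')
        have h0 := h.step2 (k := e k) (l := e l) (he0 l (by omega)) (hkne l hlk)
          (a' := wd e S' k) (a1 := wd e S l) (b := b)
          (kil_wd_ne fun a ha _ => he0 a (by omega))
          (kil_wd_ne fun a ha haS => hlne a ha (fun h' => hlS' (h' ▸ haS)))
          (kil_wd_ne fun a ha _ => hlne a (by omega) (by omega))
          (hb1 i₀ (fun a ha => he0 a (by omega))) (hb1 (e k) hkne) hb2 hcen
          (p := e p) (he0 p hp) (fun h' => hpk (he p hp k (by omega) h'))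
          (fun h' => hpl (he p hp l (by omega) h'))
        exact hne _ _ (he0 p hp) (he0 l (by omega)) (fun h' => hpl (he p hp l (by omega) h')) h0
      have h3' : θ (w * ⁅wd e S k, of (e k)⁆) = θ (w' * ⁅wd e S' k, of (e k)⁆) := by
        rw [map_mul, map_mul, hwg, hwg']; exact h3
      have hSS : S = S' := by
        ext l
        constructor
        · intro hl
          exact claim (hwc _ hkne) (hwc' _ hkne) h3' l (Finset.mem_range.1 (hS hl)) hl
        · intro hl
          exact claim (hwc' _ hkne) (hwc _ hkne) h3'.symm l (Finset.mem_range.1 (hS' hl)) hl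
      subst hSS
      have : g = g' := mul_right_cancel h3
      rw [this]
    rw [fam, Finset.card_image_of_injOn hinj, Finset.card_product, ih (by omega),
      Finset.card_powerset, Finset.card_range, ← pow_add]
    congr 1
    rcases k with _ | k
    · rfl
    · have e1 : (k + 1 + 1) * (k + 1 + 1 - 1) = (k + 1) * (k + 1 - 1) + 2 * (k + 1) := by
        simp only [Nat.add_sub_cancel]; ring
      rw [e1, Nat.add_mul_div_left _ _ (by norm_num)]

end

section

variable {ι : Type} [DecidableEq ι]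

/-- The automorphism permuting the basis. -/
def pmA (σ : Equiv.Perm ι) : MulAut (FreeGroup ι) := FreeGroup.freeGroupCongr σ

@[simp] lemma pmA_of (σ : Equiv.Perm ι) (i : ι) : pmA σ (of i) = of (σ i) := by
  simp [pmA]

lemma pmA_inv_of (σ : Equiv.Perm ι) (i : ι) : (pmA σ)⁻¹ (of (σ i)) = of i := by
  rw [← pmA_of, MulAut.inv_apply_self]

lemma pmA_cc (σ : Equiv.Perm ι) {i j k : ι} (hij : i ≠ j) (hik : i ≠ k) :
    pmA σ * cc i ⁅of j, of k⁆ * (pmA σ)⁻¹ = cc (σ i) ⁅of (σ j), of (σ k)⁆ := by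
  apply aut_ext
  intro l
  obtain ⟨l', rfl⟩ := σ.surjective l
  rw [MulAut.mul_apply, MulAut.mul_apply, pmA_inv_of]
  by_cases h : l' = i
  · subst h
    rw [cc_self, cc_self]
    simp only [map_mul, map_inv, map_commutatorElement, kil_ne hij.symm, kil_ne hik.symm,
      kil_ne (σ.injective.ne hij.symm), kil_ne (σ.injective.ne hik.symm), pmA_of]
  · rw [cc_ne h, cc_ne (σ.injective.ne h), pmA_of]

lemma exists_perm {i j k a b c : ι} (hij : i ≠ j) (hik : i ≠ k) (hjk : j ≠ k) (hab : a ≠ b)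
    (hac : a ≠ c) (hbc : b ≠ c) : ∃ σ : Equiv.Perm ι, σ i = a ∧ σ j = b ∧ σ k = c := by
  -- first move `i` to `a`
  obtain ⟨s1, h1⟩ : ∃ s : Equiv.Perm ι, s i = a := ⟨Equiv.swap i a, Equiv.swap_apply_left _ _⟩
  obtain ⟨s2, h2, h2a⟩ : ∃ s : Equiv.Perm ι, s (s1 j) = b ∧ s a = a := by
    refine ⟨Equiv.swap (s1 j) b, Equiv.swap_apply_left _ _, Equiv.swap_apply_of_ne_of_ne ?_ hab⟩
    rw [← h1]; exact s1.injective.ne hij
  refine ⟨(Equiv.swap (s2 (s1 k)) c) * s2 * s1, ?_, ?_, ?_⟩
  · rw [Equiv.Perm.mul_apply, Equiv.Perm.mul_apply, h1, h2a]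
    apply Equiv.swap_apply_of_ne_of_ne _ hac
    rw [← h2a, ← h1]
    exact s2.injective.ne (s1.injective.ne hik)
  · rw [Equiv.Perm.mul_apply, Equiv.Perm.mul_apply, h2]
    apply Equiv.swap_apply_of_ne_of_ne _ hbc
    rw [← h2]
    exact s2.injective.ne (s1.injective.ne hjk)
  · rw [Equiv.Perm.mul_apply, Equiv.Perm.mul_apply]
    exact Equiv.swap_apply_left _ _

variable {N : Subgroup (MulAut (FreeGroup ι))} [hN : N.Normal]

include hN in
/-- One partial conjugation by a commutator gives all of them. -/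
lemma all_cck {i j k : ι} (hij : i ≠ j) (hik : i ≠ k) (hjk : j ≠ k)
    (h : cc i ⁅of j, of k⁆ ∈ N) : ∀ a b c, a ≠ b → a ≠ c → cc a ⁅of b, of c⁆ ∈ N := by
  intro a b c hab hac
  by_cases hbc : b = c
  · subst hbc
    rw [commutatorElement_self, map_one]
    exact one_mem _
  · obtain ⟨σ, rfl, rfl, rfl⟩ := exists_perm hij hik hjk hab hac hbc
    rw [← pmA_cc σ hij hik]
    exact hN.conj_mem _ h _

lemma step_of_cck [hfi : N.FiniteIndex] (hinn : ∀ g, MulAut.conj g ∈ N) {i j k : ι} (hij : i ≠ j)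
    (hik : i ≠ k) (hjk : j ≠ k) (h : cc i ⁅of j, of k⁆ ∈ N) : Step N N.index where
  pos := Nat.pos_of_ne_zero hfi.index_ne_zero
  inn := hinn
  cck := all_cck hij hik hjk h
  rrp _ _ _ := Subgroup.pow_index_mem _ _

lemma trInv_mk (i₀ : ι) : TrInv i₀ ((QuotientGroup.mk' N).comp (cc i₀)) where
  inv k u hk hu x y hxy := by
    have hP : Pres i₀ (rr k u) := pres_rr hk.symm hu
    rw [MonoidHom.comp_apply, MonoidHom.comp_apply] at hxy ⊢
    rw [← hP.cc, ← hP.cc, map_mul, map_mul, map_mul, map_mul, hxy]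

/-- If no partial conjugation by a commutator is in `N`, the image of `[IA, IA]` is large. -/
lemma relIndex_ge [Fintype ι] [hfi : N.FiniteIndex] (i₀ : ι) {e : ℕ → ι} {m : ℕ} (hm : 3 ≤ m)
    (he : ∀ a < m, ∀ b < m, e a = e b → a = b) (he0 : ∀ a < m, e a ≠ i₀)
    (hne : ∀ p l, p ≠ i₀ → l ≠ i₀ → p ≠ l → cc i₀ ⁅of p, of l⁆ ∉ N) :
    2 ^ (m * (m - 1) / 2) ≤ N.relIndex ⁅IA (FreeGroup ι), IA (FreeGroup ι)⁆ := by
  set θ : FreeGroup ι →* MulAut (FreeGroup ι) ⧸ N := (QuotientGroup.mk' N).comp (cc i₀) with hθ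
  have hc := fam_card (trInv_mk (N := N) i₀) hm he he0 (fun p l h1 h2 h3 h4 => by
    rw [MonoidHom.comp_apply, QuotientGroup.mk'_apply, QuotientGroup.eq_one_iff] at h4
    exact hne p l h1 h2 h3 h4) le_rfl
  let f : (⁅IA (FreeGroup ι), IA (FreeGroup ι)⁆ : Subgroup _) →* MulAut (FreeGroup ι) ⧸ N :=
    (QuotientGroup.mk' N).comp (Subgroup.subtype _)
  have hker : f.ker = N.subgroupOf ⁅IA (FreeGroup ι), IA (FreeGroup ι)⁆ := by
    ext x
    rw [MonoidHom.mem_ker, Subgroup.mem_subgroupOf]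
    exact QuotientGroup.eq_one_iff _
  have hfin : Finite (MulAut (FreeGroup ι) ⧸ N) := Subgroup.finite_quotient_of_finiteIndex
  rw [← hc, Subgroup.relIndex, ← hker, Subgroup.index_ker]
  have hsub : ((fam θ e m : Finset _) : Set (MulAut (FreeGroup ι) ⧸ N)) ⊆ f.range := by
    intro g hg
    obtain ⟨w, hw, rfl, -⟩ := fam_mem (Finset.mem_coe.1 hg)
    have h1 : cc i₀ w ∈ ⁅IA (FreeGroup ι), IA (FreeGroup ι)⁆ := by
      have h2 : (⁅(⊤ : Subgroup (FreeGroup ι)), (⊤ : Subgroup (FreeGroup ι))⁆).map (cc i₀) ≤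
          ⁅IA (FreeGroup ι), IA (FreeGroup ι)⁆ := by
        rw [Subgroup.map_commutator]
        apply Subgroup.commutator_mono
        all_goals
          rintro _ ⟨x, -, rfl⟩
          exact cc_mem_IA _ _
      exact h2 ⟨w, hw, rfl⟩
    exact ⟨⟨_, h1⟩, rfl⟩
  rw [← Set.ncard_coe_finset]
  exact Set.ncard_le_ncard hsub (Set.toFinite _)

end

end Pool.Agent.Helper460_CSP
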