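import Pool.Agent.Helper460_CSP.Jo1
import Pool.Agent.Helper460_OutF.B1

set_option autoImplicit false
set_option linter.unusedSectionVars false
set_option linter.unusedSimpArgs false
set_option linter.unusedVariables false
set_option linter.unnecessarySeqFocus false

namespace Pool.Agent.Helper460_CSP

open Pool.Agent.Helper460_OutF
open FreeGroup (of)
open Pool.Agent.Helper156.OF (SP toAut toAut_gl gl nv gl_nv gl_true Lt SP.map_nv)
open scoped commutatorElement

variable {ι : Type} [DecidableEq ι] [Fintype ι]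

section grp

variable {G : Type} [Group G]

lemma conj_closure {S : Set G} {x : G} (h1 : ∀ a ∈ S, x * a * x⁻¹ ∈ Subgroup.closure S) :
    ∀ a ∈ Subgroup.closure S, x * a * x⁻¹ ∈ Subgroup.closure S := by
  intro a ha
  induction ha using Subgroup.closure_induction with
  | mem a ha => exact h1 a ha
  | one => rw [mul_one, mul_inv_cancel]; exact one_mem _
  | mul a b _ _ ha hb =>
    have : x * (a * b) * x⁻¹ = (x * a * x⁻¹) * (x * b * x⁻¹) := by group
    rw [this]
    exact mul_mem ha hb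
  | inv a _ ha =>
    have : x * a⁻¹ * x⁻¹ = (x * a * x⁻¹)⁻¹ := by group
    rw [this]
    exact inv_mem ha

lemma mem_norm_of_both {S : Set G} {x : G}
    (h1 : ∀ a ∈ Subgroup.closure S, x * a * x⁻¹ ∈ Subgroup.closure S)
    (h2 : ∀ a ∈ Subgroup.closure S, x⁻¹ * a * x ∈ Subgroup.closure S) :
    x ∈ Subgroup.normalizer (Subgroup.closure S : Set G) := by
  rw [Subgroup.mem_normalizer_iff]
  intro a
  constructor
  · exact h1 a
  · intro h
    have := h2 _ h
    have e : x⁻¹ * (x * a * x⁻¹) * x = a := by group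
    rwa [e] at this

end grp

section norm

variable {G : Type} [Group G] {q : MulAut (FreeGroup ι) →* G} (h : Kills q)

include h

lemma sp_conjXX (σ : SP ι) : ∀ a ∈ XX q, q (toAut σ) * a * (q (toAut σ))⁻¹ ∈ H0 q := by
  rintro a (⟨i, j, rfl⟩ | ⟨i, j, k, rfl⟩)
  · rw [sp_cc]; exact cc_mem_H0 _ _
  · unfold tt
    rcases sp_rr (q := q) σ i ⁅of j, of k⁆ with h1 | h1
    · rw [h1, map_commutatorElement]
      exact h.tt_mem_H0 _ _ _
    · rw [h1, map_commutatorElement]
      rw [← inv_inv (q (ll (spi σ i) ⁅toAut σ (of j), toAut σ (of k)⁆)), ← h.rr_eq]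
      exact Subgroup.inv_mem _ (h.tt_mem_H0 _ _ _)

lemma sp_both (σ : SP ι) : (∀ a ∈ H0 q, q (toAut σ) * a * (q (toAut σ))⁻¹ ∈ H0 q) ∧
    (∀ a ∈ H0 q, (q (toAut σ))⁻¹ * a * q (toAut σ) ∈ H0 q) := by
  refine ⟨conj_closure (sp_conjXX h σ), ?_⟩
  have h1 := conj_closure (sp_conjXX h σ⁻¹)
  rw [map_inv, map_inv, inv_inv] at h1
  exact h1

lemma rr_conjXX (p r : ι) : ∀ a ∈ XX q, q (rr p (of r)) * a * (q (rr p (of r)))⁻¹ ∈ H0 q := by
  rintro a (⟨i, j, rfl⟩ | ⟨i, j, k, rfl⟩)
  · exact h.conjA _ _ _ _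
  · exact h.conjB _ _ _ _ _

omit h in
lemma rho_rr {p r : ι} (hpr : p ≠ r) :
    toAut (rhoP r) * rr p (of r) * (toAut (rhoP r))⁻¹ = (rr p (of r))⁻¹ := by
  rw [mul_inv_eq_iff_eq_mul, ← map_inv]
  apply aut_ext
  intro l
  rw [MulAut.mul_apply, MulAut.mul_apply, toAut_rhoP]
  by_cases h1 : l = p
  · subst h1
    rw [rr_self, kil_ne hpr.symm, map_mul, toAut_rhoP, toAut_rhoP, if_neg hpr, if_pos rfl,
      rr_self, map_inv, kil_ne hpr.symm]
  · rw [rr_ne h1, toAut_rhoP]
    by_cases h2 : l = r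
    · subst h2
      rw [if_pos rfl, map_inv, rr_ne h1]
    · rw [if_neg h2, rr_ne h1]

lemma rr_both (p r : ι) : q (rr p (of r)) ∈ Subgroup.normalizer (H0 q : Set G) := by
  by_cases hpr : p = r
  · subst hpr
    rw [rr_of_self, map_one]
    exact one_mem _
  · have h1 := conj_closure (rr_conjXX h p r)
    refine mem_norm_of_both h1 ?_
    intro a ha
    obtain ⟨s1, s2⟩ := sp_both h (rhoP r)
    have e := congrArg q (rho_rr hpr)
    rw [map_mul, map_mul, map_inv, map_inv] at e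
    have e2 : (q (rr p (of r)))⁻¹ * a * q (rr p (of r)) =
        q (toAut (rhoP r)) * (q (rr p (of r)) * ((q (toAut (rhoP r)))⁻¹ * a *
          q (toAut (rhoP r))) * (q (rr p (of r)))⁻¹) * (q (toAut (rhoP r)))⁻¹ := by
      generalize q (rr p (of r)) = x at e
      generalize q (toAut (rhoP r)) = s at e
      calc x⁻¹ * a * x = (s * x * s⁻¹) * a * (s * x * s⁻¹)⁻¹ := by rw [e, inv_inv]
        _ = _ := by group
    rw [e2]
    exact s1 _ (h1 _ (s2 _ ha))

lemma all_norm (x : MulAut (FreeGroup ι)) : q x ∈ Subgroup.normalizer (H0 q : Set G) := by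
  have hr : ∀ i w, q (rr i w) ∈ Subgroup.normalizer (H0 q : Set G) := by
    intro i w
    induction w using FreeGroup.induction_on with
    | C1 => rw [map_one, map_one]; exact one_mem _
    | of j => exact rr_both h i j
    | inv_of j ih =>
      have ih' : q (rr i (of j)) ∈ Subgroup.normalizer (H0 q : Set G) := ih
      show q (rr i (of j)⁻¹) ∈ _
      rw [map_inv, map_inv]
      exact inv_mem ih'
    | mul a b ha hb => rw [map_mul, map_mul]; exact mul_mem ha hb
  have h1 : (Subgroup.normalizer (H0 q : Set G)).comap q = ⊤ := by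
    apply gen_top
    · intro σ
      obtain ⟨s1, s2⟩ := sp_both h σ
      exact mem_norm_of_both s1 s2
    · exact hr
    · intro i w
      show q (ll i w) ∈ Subgroup.normalizer (H0 q : Set G)
      have e : q (ll i w) = q (cc i w) * (q (rr i w))⁻¹ := by
        rw [cc_eq, map_mul]; group
      rw [e]
      exact mul_mem (Subgroup.le_normalizer (cc_mem_H0 _ _)) (inv_mem (hr i w))
  have h2 : x ∈ (Subgroup.normalizer (H0 q : Set G)).comap q := by rw [h1]; trivial
  exact h2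

end norm

section nice

variable (ι) in
/-- The normal closure. -/
def NN : Subgroup (MulAut (FreeGroup ι)) :=
  Subgroup.normalClosure ({x | ∃ g, x = MulAut.conj g} ∪
    {x | ∃ i j k, i ≠ j ∧ i ≠ k ∧ x = cc i ⁅of j, of k⁆})

instance : (NN ι).Normal := Subgroup.normalClosure_normal

variable (ι) in
/-- The quotient map. -/
def q0 : MulAut (FreeGroup ι) →* MulAut (FreeGroup ι) ⧸ NN ι := QuotientGroup.mk' (NN ι)

lemma q0_one {x : MulAut (FreeGroup ι)} : q0 ι x = 1 ↔ x ∈ NN ι := QuotientGroup.eq_one_iff x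

lemma q0_kills : Kills (q0 ι) :=
  ⟨fun g => q0_one.2 (Subgroup.subset_normalClosure (Or.inl ⟨g, rfl⟩)),
    fun i j k h1 h2 => q0_one.2 (Subgroup.subset_normalClosure (Or.inr ⟨i, j, k, h1, h2, rfl⟩))⟩

lemma NN_le_IA : NN ι ≤ IA (FreeGroup ι) := by
  apply Subgroup.normalClosure_le_normal
  rintro _ (⟨g, rfl⟩ | ⟨i, j, k, h1, h2, rfl⟩)
  · exact conj_mem_IA _
  · exact cc_mem_IA _ _

lemma NN_le_N1 {M : ℕ} (hM : 0 < M) : NN ι ≤ N1 ι M := by
  apply Subgroup.normalClosure_le_normal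
  rintro _ (⟨g, rfl⟩ | ⟨i, j, k, h1, h2, rfl⟩)
  · exact (N1_step hM).inn g
  · exact (N1_step hM).cck i j k h1 h2

variable (ι) in
/-- The preimage of the abelian subgroup. -/
def K0 : Subgroup (MulAut (FreeGroup ι)) := (H0 (q0 ι)).comap (q0 ι)

instance K0_normal : (K0 ι).Normal := by
  refine ⟨fun n hn g => ?_⟩
  have h1 := all_norm q0_kills g
  rw [Subgroup.mem_normalizer_iff] at h1
  show q0 ι (g * n * g⁻¹) ∈ H0 (q0 ι)
  rw [map_mul, map_mul, map_inv]
  exact (h1 _).1 hn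

lemma H0_le_map : H0 (q0 ι) ≤ (IA (FreeGroup ι)).map (q0 ι) := by
  refine (Subgroup.closure_le _).2 ?_
  rintro a (⟨i, j, rfl⟩ | ⟨i, j, k, rfl⟩)
  · exact ⟨_, cc_mem_IA i (of j), rfl⟩
  · exact ⟨_, rr_comm_mem_IA i (of j) (of k), rfl⟩

lemma K0_nice : Nice (K0 ι) where
  ccm i w := cc_mem_H0 i w
  rrm i u v := q0_kills.tt_mem_H0 i u v
  iam := by
    intro x hx
    obtain ⟨y, hy, hxy⟩ := H0_le_map hx
    have h1 : y⁻¹ * x ∈ NN ι := QuotientGroup.eq.1 hxy
    have h2 := mul_mem hy (NN_le_IA h1)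
    rwa [mul_inv_cancel_left] at h2

/-- **Magnus**: the image of `IA` is the abelian subgroup. -/
theorem IA_H0 {δ : MulAut (FreeGroup ι)} (hδ : δ ∈ IA (FreeGroup ι)) : q0 ι δ ∈ H0 (q0 ι) :=
  IA_le K0_nice hδ

end nice

end Pool.Agent.Helper460_CSP
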