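import Pool.Agent.Helper460_OutF.Lin
import Pool.Agent.Helper460_CSP.Bls

set_option autoImplicit false
set_option linter.unusedSectionVars false
set_option linter.unusedSimpArgs false
set_option linter.unusedVariables false
set_option linter.unnecessarySeqFocus false

namespace Pool.Agent.Helper460_CSP

open Pool.Agent.Helper460_OutF
open FreeGroup (of)
open Matrix hiding of zpow_neg
open Pool.Agent.Helper156.OF (SP toAut toAut_gl gl nv gl_nv gl_true Lt SP.map_nv)
open scoped commutatorElement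

variable {ι : Type} [DecidableEq ι] [Fintype ι]

/-- The exponent vector as a homomorphism. -/
def xf : FreeGroup ι →* Multiplicative (ι → ℤ) :=
  FreeGroup.lift (fun j => Multiplicative.ofAdd (Pi.single j 1))

/-- The exponent vector. -/
def xv (w : FreeGroup ι) : ι → ℤ := Multiplicative.toAdd (xf w)

lemma xv_of (j : ι) : xv (of j) = Pi.single j 1 := by
  unfold xv xf
  rw [FreeGroup.lift_apply_of]
  rfl

lemma xv_mul (a b : FreeGroup ι) : xv (a * b) = xv a + xv b := by
  unfold xv
  rw [map_mul]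
  rfl

lemma xv_one : xv (1 : FreeGroup ι) = 0 := by
  unfold xv
  rw [map_one]
  rfl

lemma xv_inv (a : FreeGroup ι) : xv a⁻¹ = - xv a := by
  unfold xv
  rw [map_inv]
  rfl

lemma xv_zpow (a : FreeGroup ι) (t : ℤ) : xv (a ^ t) = t • xv a := by
  unfold xv
  rw [map_zpow]
  rfl

/-- The matrix of the action on the abelianisation. -/
def mA (α : MulAut (FreeGroup ι)) : Matrix ι ι ℤ := fun k j => xv (α (of j)) k

lemma mA_xv (α : MulAut (FreeGroup ι)) (w : FreeGroup ι) : mA α *ᵥ xv w = xv (α w) := by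
  induction w using FreeGroup.induction_on with
  | C1 => rw [xv_one, map_one, xv_one, mulVec_zero]
  | of j =>
    show mA α *ᵥ xv (of j) = xv (α (of j))
    rw [xv_of, mulVec_single_one]
    rfl
  | inv_of j ih =>
    have ih' : mA α *ᵥ xv (of j) = xv (α (of j)) := ih
    show mA α *ᵥ xv (of j)⁻¹ = xv (α (of j)⁻¹)
    rw [xv_inv, mulVec_neg, ih', map_inv, xv_inv]
  | mul a b ha hb => rw [xv_mul, mulVec_add, ha, hb, map_mul, xv_mul]

lemma mA_mul (α β : MulAut (FreeGroup ι)) : mA (α * β) = mA α * mA β := by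
  ext k j
  show xv (α (β (of j))) k = _
  rw [← mA_xv]
  rfl

lemma mA_one : mA (1 : MulAut (FreeGroup ι)) = 1 := by
  ext k j
  show xv (of j) k = _
  rw [xv_of, Pi.single_apply, Matrix.one_apply]

lemma xv_eq_iff {a b : FreeGroup ι} :
    xv a = xv b ↔ Abelianization.of a = Abelianization.of b := by
  constructor
  · intro h
    let Φ : Multiplicative (ι → ℤ) →* Abelianization (FreeGroup ι) :=
      { toFun := fun v => ∏ j, Abelianization.of (of j) ^ (Multiplicative.toAdd v j)
        map_one' := by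
          apply Finset.prod_eq_one
          intro j _
          show Abelianization.of (of j) ^ (0 : ℤ) = 1
          rw [zpow_zero]
        map_mul' := by
          intro v w
          rw [← Finset.prod_mul_distrib]
          apply Finset.prod_congr rfl
          intro j _
          exact zpow_add _ _ _ }
    have hΦ : Φ.comp xf = Abelianization.of := by
      ext j
      rw [MonoidHom.comp_apply]
      unfold xf
      rw [FreeGroup.lift_apply_of]
      show ∏ k, Abelianization.of (of k) ^ ((Pi.single j 1 : ι → ℤ) k) = _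
      rw [Finset.prod_eq_single j]
      · rw [Pi.single_eq_same, zpow_one]
      · intro b _ hb
        rw [Pi.single_eq_of_ne hb, zpow_zero]
      · intro h
        exact absurd (Finset.mem_univ _) h
    rw [← hΦ, MonoidHom.comp_apply, MonoidHom.comp_apply]
    have h2 : xf a = xf b := h
    rw [h2]
  · intro h
    have h1 : xf a = xf b := by
      rw [← Abelianization.lift_apply_of (xf (ι := ι)) a, ← Abelianization.lift_apply_of (xf (ι := ι)) b, h]
    exact h1

lemma mem_IA_iff {α : MulAut (FreeGroup ι)} : α ∈ IA (FreeGroup ι) ↔ mA α = 1 := by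
  constructor
  · intro h
    ext k j
    show xv (α (of j)) k = _
    rw [xv_eq_iff.2 (h (of j)), xv_of, Pi.single_apply, Matrix.one_apply]
  · intro h
    apply mem_IA_of_gen
    intro j
    rw [← xv_eq_iff]
    rw [← mA_xv, h, one_mulVec]

/-- The elementary automorphism with source `i`, target `j` and exponent `t`. -/
def Ea (i j : ι) (t : ℤ) : MulAut (FreeGroup ι) := rr i (of j) ^ t

lemma Ea_eq (i j : ι) (t : ℤ) : Ea i j t = rr i (of j ^ t) := (map_zpow _ _ _).symm

lemma Ea_add (i j : ι) (s t : ℤ) : Ea i j (s + t) = Ea i j s * Ea i j t := zpow_add _ _ _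

lemma Ea_inv (i j : ι) (t : ℤ) : (Ea i j t)⁻¹ = Ea i j (-t) := (zpow_neg _ _).symm

lemma mA_Ea {i j : ι} (h : i ≠ j) (t : ℤ) : mA (Ea i j t) = transvection j i t := by
  ext k l
  show xv (Ea i j t (of l)) k = _
  rw [Ea_eq]
  unfold transvection
  rw [Matrix.add_apply, Matrix.one_apply, Matrix.single_apply]
  by_cases hl : l = i
  · subst hl
    rw [rr_self, map_zpow, kil_ne h.symm, xv_mul, xv_zpow, xv_of, xv_of, Pi.add_apply,
      Pi.single_apply, Pi.smul_apply, Pi.single_apply]
    by_cases hk : k = j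
    · subst hk; simp
    · have hk' : ¬ (j = k) := fun h2 => hk h2.symm
      simp [hk, hk']
  · rw [rr_ne hl, xv_of, Pi.single_apply, if_neg (c := j = k ∧ i = l) (fun h2 => hl h2.2.symm),
      add_zero]

/-- The action on vectors. -/
def ac (α : MulAut (FreeGroup ι)) (v : ι → ℤ) : ι → ℤ := mA α *ᵥ v

lemma ac_mul (α β : MulAut (FreeGroup ι)) (v : ι → ℤ) : ac (α * β) v = ac α (ac β v) := by
  unfold ac
  rw [mA_mul, mulVec_mulVec]

lemma ac_one (v : ι → ℤ) : ac (1 : MulAut (FreeGroup ι)) v = v := by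
  unfold ac
  rw [mA_one, one_mulVec]

lemma ac_IA {α : MulAut (FreeGroup ι)} (h : α ∈ IA (FreeGroup ι)) (v : ι → ℤ) : ac α v = v := by
  unfold ac
  rw [mem_IA_iff.1 h, one_mulVec]

lemma ac_Ea {i j : ι} (h : i ≠ j) (t : ℤ) (v : ι → ℤ) (k : ι) :
    ac (Ea i j t) v k = v k + if k = j then t * v i else 0 := by
  unfold ac
  rw [mA_Ea h]
  exact av_tv j i h.symm t v k

lemma ac_single (α : MulAut (FreeGroup ι)) (j : ι) : ac α (Pi.single j 1) = xv (α (of j)) := by
  unfold ac
  rw [← xv_of, mA_xv]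

lemma Uni.ac {v : ι → ℤ} (h : Uni v) (α : MulAut (FreeGroup ι)) : Uni (ac α v) := by
  obtain ⟨r, hr⟩ := h
  refine ⟨r ᵥ* mA α⁻¹, ?_⟩
  show (r ᵥ* mA α⁻¹) ⬝ᵥ (mA α *ᵥ v) = 1
  rw [← dotProduct_mulVec, mulVec_mulVec, ← mA_mul, inv_mul_cancel, mA_one, one_mulVec]
  exact hr

/-- The norm of a vector. -/
def nrm (v : ι → ℤ) : ℕ := ∑ k, (v k).natAbs

lemma nrm_Ea {i j : ι} (h : i ≠ j) (t : ℤ) (v : ι → ℤ) :
    nrm (ac (Ea i j t) v) + (v j).natAbs = nrm v + (v j + t * v i).natAbs := by
  unfold nrm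
  rw [← Finset.add_sum_erase _ _ (Finset.mem_univ j),
    ← Finset.add_sum_erase _ (fun k => (v k).natAbs) (Finset.mem_univ j)]
  have h1 : ∑ k ∈ Finset.univ.erase j, (ac (Ea i j t) v k).natAbs =
      ∑ k ∈ Finset.univ.erase j, (v k).natAbs := by
    apply Finset.sum_congr rfl
    intro k hk
    rw [ac_Ea h, if_neg (Finset.mem_erase.1 hk).1, add_zero]
  rw [h1, ac_Ea h, if_pos rfl]
  ring

end Pool.Agent.Helper460_CSP
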