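import Pool.Agent.Helper460_CSP.Sil2

set_option autoImplicit false
set_option linter.unusedSectionVars false
set_option linter.unusedSimpArgs false
set_option linter.unusedVariables false
set_option linter.unnecessarySeqFocus false

namespace Pool.Agent.Helper460_CSP

open Pool.Agent.Helper460_OutF
open FreeGroup (of)
open Pool.Agent.Helper156.OF (SP toAut toAut_gl gl nv gl_nv gl_true Lt SP.map_nv)
open scoped commutatorElement

variable {ι : Type} [DecidableEq ι] [Fintype ι]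

/-- The generators supported on `S`. -/
def GenS (S : Finset ι) : Set (MulAut (FreeGroup ι)) :=
  {x | (∃ i ∈ S, ∃ j ∈ S, i ≠ j ∧ ∃ ε : ℤ, (ε = 1 ∨ ε = -1) ∧ x = Ea i j ε) ∨
    ∃ σ ∈ WS S, x = toAut σ}

/-- The generators of the stabiliser. -/
def PstS (S : Finset ι) (m : ι) : Set (MulAut (FreeGroup ι)) :=
  {x | (∃ i ∈ S, ∃ j ∈ S, i ≠ j ∧ i ≠ m ∧ x = Ea i j 1) ∨ ∃ σ ∈ WS (S.erase m), x = toAut σ}

/-- The stabiliser. -/
def Pst (K : Subgroup (MulAut (FreeGroup ι))) (S : Finset ι) (m : ι) :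
    Subgroup (MulAut (FreeGroup ι)) := Subgroup.closure (PstS S m ∪ K)

/-- Unimodular vectors supported on `S`. -/
def OKv (S : Finset ι) (v : ι → ℤ) : Prop := Uni v ∧ ∀ k, k ∉ S → v k = 0

lemma GenS_Ea {S : Finset ι} {i j : ι} (hi : i ∈ S) (hj : j ∈ S) (hij : i ≠ j) {ε : ℤ}
    (hε : ε = 1 ∨ ε = -1) : Ea i j ε ∈ GenS S := Or.inl ⟨i, hi, j, hj, hij, ε, hε, rfl⟩

lemma GenS_sp {S : Finset ι} {σ : SP ι} (h : σ ∈ WS S) : toAut σ ∈ GenS S := Or.inr ⟨σ, h, rfl⟩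

lemma neg_pm {ε : ℤ} (hε : ε = 1 ∨ ε = -1) : -ε = 1 ∨ -ε = -1 := by
  rcases hε with rfl | rfl
  · right; rfl
  · left; rfl

lemma OKv.gen {S : Finset ι} {v : ι → ℤ} (h : OKv S v) {x : MulAut (FreeGroup ι)}
    (hx : x ∈ GenS S) : OKv S (ac x v) := by
  refine ⟨h.1.ac x, fun k hk => ?_⟩
  rcases hx with ⟨i, hi, j, hj, hij, ε, hε, rfl⟩ | ⟨σ, hσ, rfl⟩
  · rw [ac_Ea hij, h.2 k hk, if_neg (fun h2 => hk (by rw [h2]; exact hj)), add_zero]
  · have h1 := ac_toAut σ v k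
    rw [WS_spi_out hσ hk, h.2 k hk, mul_zero] at h1
    exact h1

section

variable {K : Subgroup (MulAut (FreeGroup ι))} [hKn : K.Normal]

lemma smul_congr {S : Finset ι} {m : ι} {x y : MulAut (FreeGroup ι)}
    (h : QuotientGroup.mk' K x = QuotientGroup.mk' K y)
    (c : MulAut (FreeGroup ι) ⧸ Pst K S m) : x • c = y • c := by
  obtain ⟨b, rfl⟩ := QuotientGroup.mk_surjective c
  show (QuotientGroup.mk (x * b) : MulAut (FreeGroup ι) ⧸ Pst K S m) = QuotientGroup.mk (y * b)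
  apply QuotientGroup.eq.2
  have h1 : x⁻¹ * y ∈ K := QuotientGroup.eq.1 h
  have h2 := hKn.conj_mem _ h1 b⁻¹
  have h3 : b⁻¹ * (x⁻¹ * y) * b⁻¹⁻¹ = (x * b)⁻¹ * (y * b) := by group
  rw [h3] at h2
  exact Subgroup.subset_closure (Or.inr h2)

/-- The equivariance up to norm `h`. -/
def Lev (K : Subgroup (MulAut (FreeGroup ι))) (S : Finset ι) (m : ι) (h : ℕ)
    (s : (ι → ℤ) → MulAut (FreeGroup ι) ⧸ Pst K S m) : Prop :=
  s (Pi.single m 1) = QuotientGroup.mk 1 ∧ ∀ v, OKv S v → nrm v ≤ h → ∀ x ∈ GenS S,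
    nrm (ac x v) ≤ h → s (ac x v) = x • s v

/-- Norm reducing moves. -/
def Red (S : Finset ι) (v : ι → ℤ) (i j : ι) (ε : ℤ) : Prop :=
  i ∈ S ∧ j ∈ S ∧ i ≠ j ∧ (ε = 1 ∨ ε = -1) ∧ (v j + ε * v i).natAbs < (v j).natAbs

lemma Red.lt {S : Finset ι} {v : ι → ℤ} {i j : ι} {ε : ℤ} (h : Red S v i j ε) :
    nrm (ac (Ea i j ε) v) < nrm v := by
  have := nrm_Ea h.2.2.1 ε v
  have := h.2.2.2.2
  omega

lemma Red.gen {S : Finset ι} {v : ι → ℤ} {i j : ι} {ε : ℤ} (h : Red S v i j ε) :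
    Ea i j ε ∈ GenS S := GenS_Ea h.1 h.2.1 h.2.2.1 h.2.2.2.1

lemma Red.ne {S : Finset ι} {v : ι → ℤ} {i j : ι} {ε : ℤ} (h : Red S v i j ε) :
    v i ≠ 0 ∧ v j ≠ 0 := by
  obtain ⟨-, -, -, hε, h1⟩ := h
  constructor
  · intro h2
    rw [h2, mul_zero, add_zero] at h1
    exact lt_irrefl _ h1
  · intro h2
    rw [h2] at h1
    simp at h1

/-- The value given by a move. -/
def vl {S : Finset ι} {m : ι} (s : (ι → ℤ) → MulAut (FreeGroup ι) ⧸ Pst K S m) (v : ι → ℤ)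
    (x : MulAut (FreeGroup ι)) : MulAut (FreeGroup ι) ⧸ Pst K S m := x⁻¹ • s (ac x v)

lemma ints_b {a b c ε ζ : ℤ} (hε : ε = 1 ∨ ε = -1) (hζ : ζ = 1 ∨ ζ = -1)
    (h1 : (b + ε * a).natAbs < b.natAbs) (h2 : (b + ζ * c).natAbs < b.natAbs)
    (h3 : c.natAbs ≤ a.natAbs) : (a + -(ζ * ε) * c).natAbs ≤ a.natAbs ∧
      (b + ζ * c) + ε * (a + -(ζ * ε) * c) = b + ε * a := by
  rcases hε with rfl | rfl <;> rcases hζ with rfl | rfl <;> constructor <;> omega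

variable (hK : Nice K) {S : Finset ι} {m : ι} {h : ℕ}
  {s : (ι → ℤ) → MulAut (FreeGroup ι) ⧸ Pst K S m} (hs : Lev K S m h s)

include hK

lemma vl_rel {v : ι → ℤ} {x y g1 g2 : MulAut (FreeGroup ι)}
    (hr : QuotientGroup.mk' K (g1 * x) = QuotientGroup.mk' K (g2 * y))
    (h1 : s (ac g1 (ac x v)) = g1 • s (ac x v)) (h2 : s (ac g2 (ac y v)) = g2 • s (ac y v)) :
    vl s v x = vl s v y := by
  have e1 : ac g1 (ac x v) = ac g2 (ac y v) := by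
    rw [← ac_mul, ← ac_mul]
    exact hK.ac_congr hr v
  have e2 : g1 • s (ac x v) = g1 • x • vl s v y := by
    rw [← h1, e1, h2, ← mul_smul g1 x, smul_congr hr]
    unfold vl
    rw [mul_smul, smul_inv_smul]
  have e3 := smul_left_cancel _ e2
  show x⁻¹ • s (ac x v) = _
  rw [e3, inv_smul_smul]

include hs

lemma vl_a {v : ι → ℤ} (hv : OKv S v) (hn : nrm v = h + 1) {i j l : ι} {ε ζ : ℤ}
    (h1 : Red S v i j ε) (h2 : Red S v i l ζ) (hjl : j ≠ l) :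
    vl s v (Ea i j ε) = vl s v (Ea i l ζ) := by
  have hij := h1.2.2.1
  have hil := h2.2.2.1
  have hc := hK.comm hij hil hij.symm hil.symm ε ζ
  have e1 : s (ac (Ea i l ζ) (ac (Ea i j ε) v)) = Ea i l ζ • s (ac (Ea i j ε) v) := by
    apply hs.2 _ (hv.gen h1.gen) (by have := h1.lt; omega) _ h2.gen
    have n1 := nrm_Ea hil ζ (ac (Ea i j ε) v)
    rw [ac_Ea hij, ac_Ea hij, if_neg hjl.symm, if_neg hij, add_zero, add_zero] at n1
    have := h1.lt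
    have := h2.2.2.2.2
    omega
  have e2 : s (ac (Ea i j ε) (ac (Ea i l ζ) v)) = Ea i j ε • s (ac (Ea i l ζ) v) := by
    apply hs.2 _ (hv.gen h2.gen) (by have := h2.lt; omega) _ h1.gen
    have n1 := nrm_Ea hij ε (ac (Ea i l ζ) v)
    rw [ac_Ea hil, ac_Ea hil, if_neg hjl, if_neg hil, add_zero, add_zero] at n1
    have := h2.lt
    have := h1.2.2.2.2
    omega
  have e3 : QuotientGroup.mk' K (Ea i l ζ * Ea i j ε) =
      QuotientGroup.mk' K (Ea i j ε * Ea i l ζ) := by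
    rw [map_mul, map_mul, hc.eq]
  exact vl_rel hK e3 e1 e2

lemma vl_b' {v : ι → ℤ} (hv : OKv S v) (hn : nrm v = h + 1) {i j k : ι} {ε ζ : ℤ}
    (h1 : Red S v i j ε) (h2 : Red S v k j ζ) (hik : i ≠ k) (hle : (v k).natAbs ≤ (v i).natAbs) :
    vl s v (Ea i j ε) = vl s v (Ea k j ζ) := by
  have hij := h1.2.2.1
  have hkj := h2.2.2.1
  obtain ⟨k1, k2⟩ := ints_b h1.2.2.2.1 h2.2.2.2.1 h1.2.2.2.2 h2.2.2.2.2 hle
  obtain ⟨η, hη⟩ : ∃ η, η = -(ζ * ε) := ⟨_, rfl⟩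
  rw [← hη] at k1 k2
  have hη1 : η = 1 ∨ η = -1 := by
    rcases h1.2.2.2.1 with h3 | h3 <;> rcases h2.2.2.2.1 with h4 | h4 <;>
      rw [hη, h3, h4] <;> norm_num
  have hηε : η * ε = -ζ := by
    rcases h1.2.2.2.1 with h3 | h3 <;> rcases h2.2.2.2.1 with h4 | h4 <;>
      rw [hη, h3, h4] <;> norm_num
  have hηg : Ea k i η ∈ GenS S := GenS_Ea h2.1 h1.1 hik.symm hη1
  -- coordinates
  have z1 : ∀ t, ac (Ea k j ζ) v t = v t + if t = j then ζ * v k else 0 := ac_Ea hkj ζ v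
  have z2 : ∀ t, ac (Ea k i η) (ac (Ea k j ζ) v) t = ac (Ea k j ζ) v t +
      if t = i then η * ac (Ea k j ζ) v k else 0 := ac_Ea hik.symm η _
  have n1 := nrm_Ea hkj ζ v
  have n2 := nrm_Ea hik.symm η (ac (Ea k j ζ) v)
  have n3 := nrm_Ea hij ε (ac (Ea k i η) (ac (Ea k j ζ) v))
  rw [z1 i, z1 k, if_neg hij, if_neg hkj, add_zero, add_zero] at n2
  rw [z2 j, z2 i, if_neg hij.symm, if_pos rfl, z1 j, z1 i, z1 k, if_pos rfl, if_neg hij,
    if_neg hkj, add_zero, add_zero, add_zero, k2] at n3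
  have m1 := h1.2.2.2.2
  have m2 := h2.2.2.2.2
  have m3 := h1.lt
  have m4 := h2.lt
  have hrel : QuotientGroup.mk' K (Ea k i η * Ea i j ε) =
      QuotientGroup.mk' K (Ea i j ε * Ea k i η * Ea k j ζ) := by
    have hst := hK.steinberg (i := k) (j := i) (k := j) hik.symm hij hkj η ε
    have hcm := hK.comm (i := k) (j := j) (k := i) (l := j) hkj hij hij.symm hkj.symm ζ ε
    rw [map_mul, map_mul, map_mul, hst, hηε, mul_assoc _ _ (QuotientGroup.mk' K (Ea k j ζ)),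
      ← hcm.eq, mul_assoc _ _ (QuotientGroup.mk' K (Ea k j ζ) * _),
      ← mul_assoc (QuotientGroup.mk' K (Ea k j (-ζ))),
      ← map_mul (QuotientGroup.mk' K) (Ea k j (-ζ)) (Ea k j ζ), ← Ea_add, neg_add_cancel]
    simp [Ea]
  have f1 : ac (Ea k i η) (ac (Ea i j ε) v) =
      ac (Ea i j ε) (ac (Ea k i η) (ac (Ea k j ζ) v)) := by
    rw [← ac_mul, ← ac_mul, ← ac_mul]
    exact hK.ac_congr hrel v
  apply vl_rel hK hrel
  · apply hs.2 _ (hv.gen h1.gen) (by omega) _ hηg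
    rw [f1]
    omega
  · have e1 : s (ac (Ea k i η) (ac (Ea k j ζ) v)) = Ea k i η • s (ac (Ea k j ζ) v) := by
      apply hs.2 _ (hv.gen h2.gen) (by omega) _ hηg
      omega
    have e2 : s (ac (Ea i j ε) (ac (Ea k i η) (ac (Ea k j ζ) v))) =
        Ea i j ε • s (ac (Ea k i η) (ac (Ea k j ζ) v)) := by
      apply hs.2 _ ((hv.gen h2.gen).gen hηg) (by omega) _ h1.gen
      omega
    rw [ac_mul, e2, e1, mul_smul]

lemma vl_b {v : ι → ℤ} (hv : OKv S v) (hn : nrm v = h + 1) {i j k : ι} {ε ζ : ℤ}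
    (h1 : Red S v i j ε) (h2 : Red S v k j ζ) (hik : i ≠ k) :
    vl s v (Ea i j ε) = vl s v (Ea k j ζ) := by
  rcases le_total (v k).natAbs (v i).natAbs with h3 | h3
  · exact vl_b' hK hs hv hn h1 h2 hik h3
  · exact (vl_b' hK hs hv hn h2 h1 hik.symm h3).symm

lemma vl_c {v : ι → ℤ} (hv : OKv S v) (hn : nrm v = h + 1) {i j : ι} {ε : ℤ}
    (h1 : Red S v i j ε) (h2 : Red S v j i ε) :
    vl s v (Ea i j ε) = vl s v (Ea j i ε) := by
  have hij := h1.2.2.1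
  obtain ⟨σ, hσ, hrel⟩ := hK.weyl hij h1.1 h1.2.1 h1.2.2.2.1
  have f1 : ac (Ea j i (-ε)) (ac (Ea i j ε) v) = ac (toAut σ) (ac (Ea j i ε) v) := by
    rw [← ac_mul, ← ac_mul]
    exact hK.ac_congr hrel v
  have m3 := h1.lt
  have m4 := h2.lt
  apply vl_rel hK hrel
  · apply hs.2 _ (hv.gen h1.gen) (by omega) _ (GenS_Ea h1.2.1 h1.1 hij.symm (neg_pm h1.2.2.2.1))
    rw [f1, nrm_toAut]
    omega
  · apply hs.2 _ (hv.gen h2.gen) (by omega) _ (GenS_sp hσ)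
    rw [nrm_toAut]
    omega

omit hK hs in
lemma red_max {v : ι → ℤ} {i M : ι} (hi : i ∈ S) (hM : M ∈ S) (hne : i ≠ M) (h0 : v i ≠ 0)
    (hle : (v i).natAbs ≤ (v M).natAbs) : ∃ ζ, Red S v i M ζ := by
  by_cases h1 : (v M + 1 * v i).natAbs < (v M).natAbs
  · exact ⟨1, hi, hM, hne, Or.inl rfl, h1⟩
  · refine ⟨-1, hi, hM, hne, Or.inr rfl, ?_⟩
    omega

omit hK hs in
lemma red_swap {v : ι → ℤ} {j M : ι} {ε : ℤ} (h1 : Red S v M j ε)
    (hle : (v j).natAbs ≤ (v M).natAbs) : Red S v j M ε := by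
  obtain ⟨a1, a2, a3, a4, a5⟩ := h1
  refine ⟨a2, a1, a3.symm, a4, ?_⟩
  rcases a4 with rfl | rfl <;> omega

lemma vl_max {v : ι → ℤ} (hv : OKv S v) (hn : nrm v = h + 1) {M : ι} (hM : M ∈ S)
    (hmax : ∀ k ∈ S, (v k).natAbs ≤ (v M).natAbs) {i j : ι} {ε : ℤ} (h1 : Red S v i j ε) :
    ∃ k ζ, Red S v k M ζ ∧ vl s v (Ea i j ε) = vl s v (Ea k M ζ) := by
  by_cases hj : j = M
  · subst hj
    exact ⟨i, ε, h1, rfl⟩
  · by_cases hi : i = M
    · subst hi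
      have h2 := red_swap h1 (hmax j h1.2.1)
      exact ⟨j, ε, h2, vl_c hK hs hv hn h1 h2⟩
    · obtain ⟨ζ, h2⟩ := red_max h1.1 hM hi h1.ne.1 (hmax i h1.1)
      exact ⟨i, ζ, h2, vl_a hK hs hv hn h1 h2 hj⟩

lemma vl_wd {v : ι → ℤ} (hv : OKv S v) (hn : nrm v = h + 1) {i j k l : ι} {ε ζ : ℤ}
    (h1 : Red S v i j ε) (h2 : Red S v k l ζ) : vl s v (Ea i j ε) = vl s v (Ea k l ζ) := by
  obtain ⟨M, hM, hmax⟩ := Finset.exists_max_image S (fun k => (v k).natAbs) ⟨i, h1.1⟩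
  obtain ⟨a, α, h3, h3'⟩ := vl_max hK hs hv hn hM hmax h1
  obtain ⟨b, β, h4, h4'⟩ := vl_max hK hs hv hn hM hmax h2
  rw [h3', h4']
  by_cases hab : a = b
  · subst hab
    have : α = β := by
      have a1 := h3.2.2.2
      have a2 := h4.2.2.2
      rcases a1.1 with rfl | rfl <;> rcases a2.1 with rfl | rfl
      · rfl
      · have := a1.2; have := a2.2; omega
      · have := a1.2; have := a2.2; omega
      · rfl
    rw [this]
  · exact vl_b hK hs hv hn h3 h4 hab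

end

end Pool.Agent.Helper460_CSP
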