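import Pool.Agent.Helper460_CSP.Sil3

set_option autoImplicit false
set_option linter.unusedSectionVars false
set_option linter.unusedSimpArgs false
set_option linter.unusedVariables false
set_option linter.unnecessarySeqFocus false

namespace Pool.Agent.Helper460_CSP

open Pool.Agent.Helper460_OutF
open FreeGroup (of)
open Pool.Agent.Helper156.OF (SP toAut toAut_gl gl nv gl_nv gl_true Lt SP.map_nv)
open scoped commutatorElement

variable {ι : Type} [DecidableEq ι] [Fintype ι]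

section vectors

variable {S : Finset ι} {m : ι}

lemma OKv.exists_ne {v : ι → ℤ} (h : OKv S v) : ∃ k ∈ S, v k ≠ 0 := by
  by_contra hcon
  push Not at hcon
  have h0 : v = 0 := by
    funext k
    by_cases hk : k ∈ S
    · exact hcon k hk
    · exact h.2 k hk
  obtain ⟨r, hr⟩ := h.1
  rw [h0] at hr
  simp at hr

lemma red_exists {v : ι → ℤ} (h : OKv S v) (hn : 2 ≤ nrm v) : ∃ i j ε, Red S v i j ε := by
  obtain ⟨k, hk, hk0⟩ := h.exists_ne
  by_cases h1 : ∃ l ∈ S, l ≠ k ∧ v l ≠ 0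
  · obtain ⟨l, hl, hlk, hl0⟩ := h1
    rcases le_total (v l).natAbs (v k).natAbs with h2 | h2
    · obtain ⟨ζ, h3⟩ := red_max hl hk hlk hl0 h2
      exact ⟨l, k, ζ, h3⟩
    · obtain ⟨ζ, h3⟩ := red_max hk hl hlk.symm hk0 h2
      exact ⟨k, l, ζ, h3⟩
  · push Not at h1
    exfalso
    have h2 : v = Pi.single k (v k) := by
      funext l
      by_cases hl : l = k
      · subst hl; rw [Pi.single_eq_same]
      · rw [Pi.single_eq_of_ne hl]
        by_cases hlS : l ∈ S
        · exact h1 l hlS hl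
        · exact h.2 l hlS
    obtain ⟨r, hr⟩ := h.1
    have hr' : r ⬝ᵥ v = 1 := hr
    rw [h2, dotProduct_single] at hr'

    have h3 : v k = 1 ∨ v k = -1 := Int.eq_one_or_neg_one_of_mul_eq_one' hr' |>.elim
      (fun h4 => Or.inl h4.2) (fun h4 => Or.inr h4.2)
    have h4 : nrm v = (v k).natAbs := by
      unfold nrm
      rw [Finset.sum_eq_single k]
      · intro l _ hl
        rw [h2, Pi.single_eq_of_ne hl]
        rfl
      · intro h5
        exact absurd (Finset.mem_univ _) h5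
    rcases h3 with h3 | h3 <;> rw [h4, h3] at hn <;> simp at hn

lemma nrm_single (k : ι) (c : ℤ) : nrm (Pi.single k c : ι → ℤ) = c.natAbs := by
  unfold nrm
  rw [Finset.sum_eq_single k]
  · rw [Pi.single_eq_same]
  · intro l _ hl
    rw [Pi.single_eq_of_ne hl]
    rfl
  · intro h5
    exact absurd (Finset.mem_univ _) h5

lemma ac_toAut_single (σ : SP ι) (j : ι) :
    ac (toAut σ) (Pi.single j 1) = Pi.single (spi σ j) (sgs σ j) := by
  rw [ac_single, xv_toAut]

lemma OKv_single (hm : m ∈ S) : OKv S (Pi.single m 1) := by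
  refine ⟨⟨Pi.single m 1, ?_⟩, fun k hk => ?_⟩
  · show (Pi.single m 1 : ι → ℤ) ⬝ᵥ Pi.single m 1 = 1
    rw [dotProduct_single, Pi.single_eq_same, mul_one]
  · rw [Pi.single_eq_of_ne]
    intro h
    exact hk (by rw [h]; exact hm)

lemma small_vec {v : ι → ℤ} (h : OKv S v) (hn : nrm v ≤ 1) (hm : m ∈ S) :
    ∃ σ ∈ WS S, ac (toAut σ) (Pi.single m 1) = v := by
  obtain ⟨k, hk, hk0⟩ := h.exists_ne
  have h1 : (v k).natAbs + ∑ l ∈ Finset.univ.erase k, (v l).natAbs = nrm v :=
    Finset.add_sum_erase _ (fun k => (v k).natAbs) (Finset.mem_univ k)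
  have h2 : ∑ l ∈ Finset.univ.erase k, (v l).natAbs = 0 := by omega
  have h3 : v = Pi.single k (v k) := by
    funext l
    by_cases hl : l = k
    · subst hl; rw [Pi.single_eq_same]
    · rw [Pi.single_eq_of_ne hl]
      have := Finset.sum_eq_zero_iff.1 h2 l (Finset.mem_erase.2 ⟨hl, Finset.mem_univ _⟩)
      exact Int.natAbs_eq_zero.1 this
  have h4 : v k = 1 ∨ v k = -1 := by omega
  rcases h4 with h4 | h4
  · refine ⟨tauP m k, tauP_mem hm hk, ?_⟩
    rw [ac_single, toAut_tauP, Equiv.swap_apply_left, xv_of, h3, h4]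
  · refine ⟨rhoP k * tauP m k, mul_mem (rhoP_mem hk) (tauP_mem hm hk), ?_⟩
    rw [map_mul, ac_mul, ac_single, toAut_tauP, Equiv.swap_apply_left, xv_of, ac_single,
      toAut_rhoP, if_pos rfl, xv_inv, xv_of, h3, h4]
    exact (Pi.single_neg _ _).symm

end vectors

section base

variable {K : Subgroup (MulAut (FreeGroup ι))} [hKn : K.Normal] (hK : Nice K) {S : Finset ι}
  {m : ι}

/-- The base section. -/
noncomputable def s0 (K : Subgroup (MulAut (FreeGroup ι))) (S : Finset ι) (m : ι) (v : ι → ℤ) :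
    MulAut (FreeGroup ι) ⧸ Pst K S m := by
  classical
  exact if h : ∃ σ ∈ WS S, ac (toAut σ) (Pi.single m 1) = v then
    QuotientGroup.mk (toAut h.choose) else QuotientGroup.mk 1

lemma s0_eq {σ : SP ι} (hσ : σ ∈ WS S) :
    s0 K S m (ac (toAut σ) (Pi.single m 1)) = QuotientGroup.mk (toAut σ) := by
  classical
  have h : ∃ τ ∈ WS S, ac (toAut τ) (Pi.single m 1) = ac (toAut σ) (Pi.single m 1) :=
    ⟨σ, hσ, rfl⟩
  unfold s0
  rw [dif_pos h]
  obtain ⟨h1, h2⟩ := h.choose_spec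
  generalize h.choose = τ at h1 h2
  apply QuotientGroup.eq.2
  apply Subgroup.subset_closure
  left
  right
  refine ⟨τ⁻¹ * σ, ?_, by rw [map_mul, map_inv]⟩
  have h3 : ac (toAut (τ⁻¹ * σ)) (Pi.single m 1) = (Pi.single m 1 : ι → ℤ) := by
    rw [map_mul, ac_mul, ← h2, ← ac_mul, ← map_mul, inv_mul_cancel, map_one, ac_one]
  have h4 : τ⁻¹ * σ ∈ WS S := mul_mem (inv_mem h1) hσ
  generalize τ⁻¹ * σ = ρ at h3 h4
  rw [ac_toAut_single] at h3
  have h5 : spi ρ m = m := by
    by_contra hcon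
    have h6 := congrFun h3 m
    rw [Pi.single_eq_same, Pi.single_eq_of_ne (Ne.symm hcon)] at h6
    exact zero_ne_one h6
  have h6 : sgs ρ m = 1 := by
    have h7 := congrFun h3 m
    rwa [h5, Pi.single_eq_same, Pi.single_eq_same] at h7
  intro k hk
  by_cases hkm : k = m
  · subst hkm
    have h7 : ((ρ : Equiv.Perm (Lt ι)) (k, true)).2 = true := by
      unfold sgs at h6
      by_contra hcon
      rw [if_neg hcon] at h6
      norm_num at h6
    exact Prod.ext h5 h7
  · exact h4 k (fun h7 => hk (Finset.mem_erase.2 ⟨hkm, h7⟩))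

lemma Ea_mem_Pst {i j : ι} (hi : i ∈ S) (hj : j ∈ S) (hij : i ≠ j) (him : i ≠ m) (t : ℤ) :
    Ea i j t ∈ Pst K S m := by
  have h1 : Ea i j 1 ∈ Pst K S m :=
    Subgroup.subset_closure (Or.inl (Or.inl ⟨i, hi, j, hj, hij, him, rfl⟩))
  have h2 : Ea i j t = (Ea i j 1) ^ t := by
    unfold Ea
    rw [zpow_one]
  rw [h2]
  exact zpow_mem h1 t

lemma ac_Ea_zero {i j : ι} (hij : i ≠ j) (t : ℤ) {v : ι → ℤ} (h : v i = 0) :
    ac (Ea i j t) v = v := by
  funext k
  rw [ac_Ea hij, h, mul_zero, ite_self, add_zero]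

include hK in
lemma Nice.sp_Ea' (σ : SP ι) (i j : ι) (t : ℤ) : ∃ t', (t' = t ∨ t' = -t) ∧
    QuotientGroup.mk' K (Ea i j t * toAut σ) =
      QuotientGroup.mk' K (toAut σ * Ea (spi σ⁻¹ i) (spi σ⁻¹ j) t') := by
  obtain ⟨t', ht, h1⟩ := hK.sp_Ea σ⁻¹ i j t
  refine ⟨t', ht, ?_⟩
  have h2 : Ea i j t * toAut σ = toAut σ * (toAut σ⁻¹ * Ea i j t) * toAut σ := by
    rw [map_inv]; group
  rw [h2, map_mul, map_mul, h1, ← map_mul, ← map_mul]
  congr 1
  rw [map_inv]
  group

lemma spi_inv_right (σ : SP ι) (i : ι) : spi σ (spi σ⁻¹ i) = i := by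
  have h1 : spi (σ * σ⁻¹) i = spi σ (spi σ⁻¹ i) := by
    show ((σ : Equiv.Perm (Lt ι)) ((σ⁻¹ : Equiv.Perm (Lt ι)) (i, true))).1 =
      ((σ : Equiv.Perm (Lt ι)) (((σ⁻¹ : Equiv.Perm (Lt ι)) (i, true)).1, true)).1
    generalize (σ⁻¹ : Equiv.Perm (Lt ι)) (i, true) = p
    obtain ⟨a, b⟩ := p
    cases b
    · have h2 : ((a, false) : Lt ι) = nv (a, true) := rfl
      rw [h2, SP.map_nv]
      rfl
    · rfl
  rw [← h1, mul_inv_cancel]
  rfl

include hK in
lemma lev_base (hm : m ∈ S) : Lev K S m 1 (s0 K S m) := by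
  constructor
  · have h1 := s0_eq (K := K) (m := m) (one_mem (WS S))
    rwa [map_one, ac_one] at h1
  · intro v hv hn x hx hn'
    obtain ⟨σ, hσ, rfl⟩ := small_vec hv hn hm
    rcases hx with ⟨i, hi, j, hj, hij, ε, hε, rfl⟩ | ⟨τ, hτ, rfl⟩
    · have h0 : ac (toAut σ) (Pi.single m 1) i = 0 := by
        by_contra hcon
        rw [ac_toAut_single] at hcon hn hn'
        have h1 : i = spi σ m := by
          by_contra h2
          exact hcon (Pi.single_eq_of_ne h2 _)
        have n1 := nrm_Ea hij ε (Pi.single (spi σ m) (sgs σ m))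
        rw [h1, Pi.single_eq_same, Pi.single_eq_of_ne (h1 ▸ hij.symm), zero_add, ← h1,
          nrm_single] at n1
        have hA : (ε * sgs σ m).natAbs = 1 := by
          rcases sgs_cases σ m with h2 | h2 <;> rcases hε with h3 | h3 <;> rw [h2, h3] <;> rfl
        have hB : (sgs σ m).natAbs = 1 := by
          rcases sgs_cases σ m with h2 | h2 <;> rw [h2] <;> rfl
        have hC : (0 : ℤ).natAbs = 0 := rfl
        rw [hA, hB, hC] at n1
        rw [← h1] at hn'
        omega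
      rw [ac_Ea_zero hij ε h0, s0_eq hσ]
      obtain ⟨t', ht, h1⟩ := hK.sp_Ea' σ i j ε
      have h2 : Ea i j ε • (QuotientGroup.mk (toAut σ) : MulAut (FreeGroup ι) ⧸ Pst K S m) =
          (Ea i j ε * toAut σ) • (QuotientGroup.mk 1 : MulAut (FreeGroup ι) ⧸ Pst K S m) := by
        rw [mul_smul]
        show _ = Ea i j ε • (QuotientGroup.mk (toAut σ * 1) : MulAut (FreeGroup ι) ⧸ Pst K S m)
        rw [mul_one]
      rw [h2, smul_congr h1]
      show _ = (QuotientGroup.mk (toAut σ * Ea (spi σ⁻¹ i) (spi σ⁻¹ j) t' * 1) :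
        MulAut (FreeGroup ι) ⧸ Pst K S m)
      rw [mul_one]
      apply QuotientGroup.eq.2
      rw [inv_mul_cancel_left]
      apply Ea_mem_Pst (WS_spi (inv_mem hσ) hi) (WS_spi (inv_mem hσ) hj)
      · intro h3
        exact hij (spi_inj _ h3)
      · intro h3
        have h4 := congrArg (spi σ) h3
        rw [spi_inv_right] at h4
        rw [ac_toAut_single, h4, Pi.single_eq_same] at h0
        rcases sgs_cases σ m with h2 | h2 <;> rw [h2] at h0 <;> norm_num at h0
    · rw [← ac_mul, ← map_mul, s0_eq (mul_mem hτ hσ), s0_eq hσ, map_mul]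
      rfl

end base

end Pool.Agent.Helper460_CSP
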