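import Pool.Agent.Helper460_CSP.Sil5

set_option autoImplicit false
set_option linter.unusedSectionVars false
set_option linter.unusedSimpArgs false
set_option linter.unusedVariables false
set_option linter.unnecessarySeqFocus false

namespace Pool.Agent.Helper460_CSP

open Pool.Agent.Helper460_OutF
open FreeGroup (of)
open Pool.Agent.Helper156.OF (SP toAut toAut_gl gl nv gl_nv gl_true Lt SP.map_nv)
open scoped commutatorElement

variable {ι : Type} [DecidableEq ι] [Fintype ι]

section theta

/-- The underlying endomorphism. -/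
def thh (m : ι) (a : ι → ℤ) : FreeGroup ι →* FreeGroup ι :=
  FreeGroup.lift (fun i => if i = m then of m else of i * of m ^ a i)

lemma thh_of (m : ι) (a : ι → ℤ) (i : ι) :
    thh m a (of i) = if i = m then of m else of i * of m ^ a i := by
  unfold thh
  rw [FreeGroup.lift_apply_of]

lemma thh_comp (m : ι) (a b : ι → ℤ) (w : FreeGroup ι) :
    thh m a (thh m b w) = thh m (a + b) w := by
  rw [← MonoidHom.comp_apply]
  congr 1
  ext i
  rw [MonoidHom.comp_apply, thh_of, thh_of]
  by_cases h : i = m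
  · rw [if_pos h, if_pos h, thh_of, if_pos rfl]
  · rw [if_neg h, if_neg h, map_mul, map_zpow, thh_of, thh_of, if_neg h, if_pos rfl, mul_assoc,
      ← zpow_add, Pi.add_apply]

lemma thh_zero (m : ι) (w : FreeGroup ι) : thh m 0 w = w := by
  have : thh m (0 : ι → ℤ) = MonoidHom.id _ := by
    ext i
    rw [thh_of]
    by_cases h : i = m
    · rw [if_pos h, h]; rfl
    · rw [if_neg h, Pi.zero_apply, zpow_zero, mul_one]; rfl
  rw [this]
  rfl

/-- The simultaneous transvection towards `m`. -/
def th (m : ι) (a : ι → ℤ) : MulAut (FreeGroup ι) where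
  toFun := thh m a
  invFun := thh m (-a)
  left_inv := fun w => by rw [thh_comp, neg_add_cancel, thh_zero]
  right_inv := fun w => by rw [thh_comp, add_neg_cancel, thh_zero]
  map_mul' := map_mul _

lemma th_of (m : ι) (a : ι → ℤ) (i : ι) :
    th m a (of i) = if i = m then of m else of i * of m ^ a i := thh_of m a i

lemma th_add (m : ι) (a b : ι → ℤ) : th m (a + b) = th m a * th m b := by
  apply MulEquiv.ext
  intro w
  exact (thh_comp m a b w).symm

lemma th_zero (m : ι) : th m (0 : ι → ℤ) = 1 := by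
  apply MulEquiv.ext
  intro w
  exact thh_zero m w

lemma th_single {m i : ι} (h : i ≠ m) (t : ℤ) : th m (Pi.single i t) = Ea i m t := by
  apply aut_ext
  intro l
  rw [th_of]
  by_cases h1 : l = m
  · subst h1
    rw [if_pos rfl, Ea_ne h.symm]
  · rw [if_neg h1]
    by_cases h2 : l = i
    · subst h2
      rw [Pi.single_eq_same, Ea_self h1]
    · rw [Pi.single_eq_of_ne h2, zpow_zero, mul_one, Ea_ne h2]

lemma ac_th_single {m i : ι} (h : i ≠ m) (a : ι → ℤ) :
    ac (th m a) (Pi.single i 1) = Pi.single i 1 + Pi.single m (a i) := by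
  rw [ac_single, th_of, if_neg h, xv_mul, xv_zpow, xv_of, xv_of]
  congr 1
  funext k
  by_cases hk : k = m
  · subst hk; simp
  · simp [hk]

end theta

section desc

variable {K : Subgroup (MulAut (FreeGroup ι))} [hKn : K.Normal] (hK : Nice K) {T : Finset ι}
  {m : ι} (hm : m ∉ T)

include hK

lemma GG_out {S : Finset ι} {y : MulAut (FreeGroup ι)} (hy : y ∈ GG K S) {k : ι} (hk : k ∉ S) :
    ∀ v : ι → ℤ, ac y v k = v k := by
  unfold GG at hy
  induction hy using Subgroup.closure_induction with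
  | mem x hx =>
    intro v
    rcases hx with (⟨i, hi, j, hj, hij, ε, hε, rfl⟩ | ⟨σ, hσ, rfl⟩) | hx
    · rw [ac_Ea hij, if_neg (fun h2 => hk (by rw [h2]; exact hj)), add_zero]
    · have h1 := ac_toAut σ v k
      rwa [WS_spi_out hσ hk, WS_sgs_out hσ hk, one_mul] at h1
    · rw [ac_IA (hK.iam hx)]
  | one => intro v; rw [ac_one]
  | mul x y _ _ hx hy => intro v; rw [ac_mul, hx, hy]
  | inv x _ hx =>
    intro v
    rw [← hx (ac x⁻¹ v), ← ac_mul, mul_inv_cancel, ac_one]

include hm

lemma norm_single {x : MulAut (FreeGroup ι)} (hx : x ∈ GenS T) {k : ι} (hk : k ∈ T) (t : ℤ) :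
    ∃ a' : ι → ℤ, (∀ l, l ∉ T → a' l = 0) ∧
      QuotientGroup.mk' K (x * th m (Pi.single k t)) = QuotientGroup.mk' K (th m a' * x) := by
  have hkm : k ≠ m := fun h => hm (h ▸ hk)
  rw [th_single hkm]
  rcases hx with ⟨i, hi, j, hj, hij, ε, hε, rfl⟩ | ⟨σ, hσ, rfl⟩
  · have him : i ≠ m := fun h => hm (h ▸ hi)
    have hjm : j ≠ m := fun h => hm (h ▸ hj)
    by_cases hjk : j = k
    · subst hjk
      refine ⟨Pi.single i (-(ε * t)) + Pi.single j t, ?_, ?_⟩
      · intro l hl
        rw [Pi.add_apply, Pi.single_eq_of_ne (fun h => hl (by rw [h]; exact hi)),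
          Pi.single_eq_of_ne (fun h => hl (by rw [h]; exact hj)), add_zero]
      · rw [th_add, th_single him, th_single hkm]
        have hst := hK.steinberg hij hkm him ε t
        have hcm := hK.comm hij him hij.symm him.symm ε (ε * t)
        have hcm2 := hK.comm (i := i) (j := m) (k := j) (l := m) him hkm hkm.symm him.symm
          (ε * t) t
        rw [map_mul, map_mul, map_mul, mul_assoc, hst, ← Ea_inv, map_inv]
        rw [hcm.eq]
        group
    · refine ⟨Pi.single k t, ?_, ?_⟩
      · intro l hl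
        rw [Pi.single_eq_of_ne (fun h => hl (by rw [h]; exact hk))]
      · rw [th_single hkm, map_mul, map_mul]
        exact (hK.comm hij hkm hjk him.symm ε t).eq
  · obtain ⟨t', -, h1⟩ := hK.sp_Ea σ k m t
    have hsm : spi σ m = m := WS_spi_out hσ hm
    have hsk : spi σ k ∈ T := WS_spi hσ hk
    refine ⟨Pi.single (spi σ k) t', ?_, ?_⟩
    · intro l hl
      rw [Pi.single_eq_of_ne (fun h => hl (by rw [h]; exact hsk))]
    · have hne : spi σ k ≠ m := by
        intro h
        apply hm
        rw [← h]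
        exact hsk
      rw [th_single hne, h1, hsm]

lemma norm_th {x : MulAut (FreeGroup ι)} (hx : x ∈ GenS T) {a : ι → ℤ}
    (ha : ∀ l, l ∉ T → a l = 0) :
    ∃ a' : ι → ℤ, (∀ l, l ∉ T → a' l = 0) ∧
      QuotientGroup.mk' K (x * th m a) = QuotientGroup.mk' K (th m a' * x) := by
  have hz : ∃ a' : ι → ℤ, (∀ l, l ∉ T → a' l = 0) ∧
      QuotientGroup.mk' K (x * th m 0) = QuotientGroup.mk' K (th m a' * x) :=
    ⟨0, fun _ _ => rfl, by rw [th_zero, mul_one, one_mul]⟩
  have h1 := Finset.sum_induction (fun k => (Pi.single k (a k) : ι → ℤ))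
    (fun b => ∃ a' : ι → ℤ, (∀ l, l ∉ T → a' l = 0) ∧
      QuotientGroup.mk' K (x * th m b) = QuotientGroup.mk' K (th m a' * x))
    (s := Finset.univ) ?_ hz ?_
  · rwa [Finset.univ_sum_single] at h1
  · rintro b c ⟨b', hb, hb'⟩ ⟨c', hc, hc'⟩
    refine ⟨b' + c', fun l hl => by rw [Pi.add_apply, hb l hl, hc l hl, add_zero], ?_⟩
    rw [th_add, th_add, ← mul_assoc, map_mul _ (x * th m b), hb', map_mul, mul_assoc, ← map_mul,
      hc', ← map_mul, ← mul_assoc]
  · intro k _
    by_cases hk : k ∈ T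
    · exact norm_single hK hm hx hk _
    · show ∃ a' : ι → ℤ, (∀ l, l ∉ T → a' l = 0) ∧
        QuotientGroup.mk' K (x * th m (Pi.single k (a k))) = QuotientGroup.mk' K (th m a' * x)
      rw [ha k hk, Pi.single_zero]
      exact hz

lemma Pst_form {g : MulAut (FreeGroup ι)} (hg : g ∈ Pst K (insert m T) m) :
    ∃ a : ι → ℤ, (∀ l, l ∉ T → a l = 0) ∧ ∃ y ∈ GG K T,
      QuotientGroup.mk' K g = QuotientGroup.mk' K (th m a * y) := by
  have key : ∀ x : MulAut (FreeGroup ι), (x ∈ K ∨ (∃ i ∈ T, ∃ t, x = Ea i m t) ∨ x ∈ GenS T) →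
      ∀ y' : MulAut (FreeGroup ι), (∃ a : ι → ℤ, (∀ l, l ∉ T → a l = 0) ∧ ∃ y ∈ GG K T,
      QuotientGroup.mk' K y' = QuotientGroup.mk' K (th m a * y)) →
      (∃ a : ι → ℤ, (∀ l, l ∉ T → a l = 0) ∧ ∃ y ∈ GG K T,
      QuotientGroup.mk' K (x * y') = QuotientGroup.mk' K (th m a * y)) := by
    rintro x hx y' ⟨a, ha, y, hy, h1⟩
    rcases hx with hx | ⟨i, hi, t, rfl⟩ | hx
    · refine ⟨a, ha, y, hy, ?_⟩
      rw [map_mul, hK.one hx, one_mul, h1]
    · have him : i ≠ m := fun h => hm (h ▸ hi)
      refine ⟨Pi.single i t + a, ?_, y, hy, ?_⟩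
      · intro l hl
        rw [Pi.add_apply, ha l hl, Pi.single_eq_of_ne (fun h => hl (by rw [h]; exact hi)),
          add_zero]
      · rw [th_add, th_single him, map_mul, h1, ← map_mul, mul_assoc]
    · obtain ⟨a', ha', h2⟩ := norm_th hK hm hx ha
      refine ⟨a', ha', x * y, mul_mem (Subgroup.subset_closure (Or.inl hx)) hy, ?_⟩
      rw [map_mul, h1, ← map_mul, ← mul_assoc, map_mul _ (x * th m a), h2, ← map_mul, mul_assoc]
  have hne : ∀ i ∈ insert m T, i ≠ m → i ∈ T := by
    intro i hi hne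
    rcases Finset.mem_insert.1 hi with h | h
    · exact absurd h hne
    · exact h
  have cls : ∀ x ∈ PstS (insert m T) m ∪ (K : Set (MulAut (FreeGroup ι))),
      (x ∈ K ∨ (∃ i ∈ T, ∃ t, x = Ea i m t) ∨ x ∈ GenS T) ∧
      (x⁻¹ ∈ K ∨ (∃ i ∈ T, ∃ t, x⁻¹ = Ea i m t) ∨ x⁻¹ ∈ GenS T) := by
    rintro x ((⟨i, hi, j, hj, hij, him, rfl⟩ | ⟨σ, hσ, rfl⟩) | hx)
    · by_cases hjm : j = m
      · subst hjm
        exact ⟨Or.inr (Or.inl ⟨i, hne i hi him, 1, rfl⟩),
          Or.inr (Or.inl ⟨i, hne i hi him, -1, Ea_inv _ _ _⟩)⟩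
      · have := GenS_Ea (hne i hi him) (hne j hj hjm) hij (Or.inl rfl : (1 : ℤ) = 1 ∨ (1 : ℤ) = -1)
        exact ⟨Or.inr (Or.inr this), Or.inr (Or.inr (GenS_inv this))⟩
    · rw [Finset.erase_insert hm] at hσ
      exact ⟨Or.inr (Or.inr (GenS_sp hσ)), Or.inr (Or.inr (GenS_inv (GenS_sp hσ)))⟩
    · exact ⟨Or.inl hx, Or.inl (inv_mem hx)⟩
  unfold Pst at hg
  induction hg using Subgroup.closure_induction_left with
  | one => exact ⟨0, fun _ _ => rfl, 1, one_mem _, by rw [th_zero, mul_one]⟩
  | mul_left x hx y hy ih => exact key x (cls x hx).1 y ih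
  | inv_mul_cancel x hx y hy ih => exact key x⁻¹ (cls x hx).2 y ih

omit hm in
lemma desc : ∀ S : Finset ι, ∀ g ∈ GG K S, g ∈ IA (FreeGroup ι) → g ∈ K := by
  intro S
  induction S using Finset.induction_on with
  | empty =>
    intro g hg _
    refine (Subgroup.closure_le K).2 ?_ hg
    rintro x ((⟨i, hi, -⟩ | ⟨σ, hσ, rfl⟩) | hx)
    · exact absurd hi (Finset.notMem_empty _)
    · have : toAut σ = 1 := by
        apply aut_ext
        intro l
        rw [toAut_of, mem_WS.1 hσ l (Finset.notMem_empty _), gl_true]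
        rfl
      rw [this]
      exact one_mem K
    · exact hx
  | insert m T hm ih =>
    intro g hg hIA
    have h1 := GG_stab hK (Finset.mem_insert_self m T) hg (ac_IA hIA _)
    obtain ⟨a, ha, y, hy, h2⟩ := Pst_form hK hm h1
    have ha0 : a = 0 := by
      funext i
      by_cases hi : i ∈ T
      · have him : i ≠ m := fun h => hm (h ▸ hi)
        have h3 : ac g (ac y⁻¹ (Pi.single i 1)) = ac y⁻¹ (Pi.single i 1) := ac_IA hIA _
        rw [hK.ac_congr h2, ac_mul, ← ac_mul y, mul_inv_cancel, ac_one, ac_th_single him] at h3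
        have h4 := congrFun h3 m
        rw [GG_out hK (inv_mem hy) hm, Pi.add_apply, Pi.single_eq_of_ne him.symm,
          Pi.single_eq_same, zero_add] at h4
        exact h4
      · exact ha i hi
    rw [ha0, th_zero, one_mul] at h2
    have h5 : y ∈ IA (FreeGroup ι) := by
      have h6 : g⁻¹ * y ∈ K := QuotientGroup.eq.1 h2
      have h7 := mul_mem hIA (hK.iam h6)
      rwa [mul_inv_cancel_left] at h7
    have h8 := hK.one (ih y hy h5)
    rw [← h2] at h8
    exact (QuotientGroup.eq_one_iff _).1 h8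

omit hm in
lemma IA_le : IA (FreeGroup ι) ≤ K := by
  have h1 : GG K (Finset.univ : Finset ι) = ⊤ := by
    have hr : ∀ i w, rr i w ∈ GG K (Finset.univ : Finset ι) := by
      intro i w
      induction w using FreeGroup.induction_on with
      | C1 => rw [map_one]; exact one_mem _
      | of j =>
        show rr i (of j) ∈ _
        by_cases hij : i = j
        · subst hij
          have : rr i (of i) = (1 : MulAut (FreeGroup ι)) := by
            apply aut_ext
            intro l
            by_cases hl : l = i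
            · subst hl
              rw [rr_self, kil_self, mul_one]
              rfl
            · rw [rr_ne hl]
              rfl
          rw [this]
          exact one_mem _
        · have := GenS_Ea (Finset.mem_univ i) (Finset.mem_univ j) hij
            (Or.inl rfl : (1 : ℤ) = 1 ∨ (1 : ℤ) = -1)
          rw [show Ea i j 1 = rr i (of j) from zpow_one _] at this
          exact Subgroup.subset_closure (Or.inl this)
      | inv_of j ih =>
        show rr i (of j)⁻¹ ∈ _
        rw [map_inv]
        exact inv_mem ih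
      | mul a b ha hb =>
        rw [map_mul]
        exact mul_mem ha hb
    apply gen_top
    · intro σ
      exact Subgroup.subset_closure (Or.inl (GenS_sp (fun k hk => absurd (Finset.mem_univ k) hk)))
    · exact hr
    · intro i w
      have h2 : ll i w = cc i w * (rr i w)⁻¹ := by rw [cc_eq, mul_inv_cancel_right]
      rw [h2]
      exact mul_mem (Subgroup.subset_closure (Or.inr (hK.ccm i w))) (inv_mem (hr i w))
  intro g hg
  exact desc hK Finset.univ g (h1 ▸ Subgroup.mem_top g) hg

end desc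

end Pool.Agent.Helper460_CSP
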