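import Pool.Agent.Helper460_CSP.Cong
import Pool.Agent.Helper460_OutF.Perm2

set_option autoImplicit false
set_option linter.unusedSectionVars false
set_option linter.unusedSimpArgs false
set_option linter.unusedVariables false
set_option linter.unnecessarySeqFocus false

namespace Pool.Agent.Helper460_CSP

open Pool.Agent.Helper460_OutF
open FreeGroup (of)
open scoped commutatorElement

theorem noCube_complex {d r : ℕ} (hn : d < 2 ^ (r + 1)) :
    NoCube r (Matrix.GeneralLinearGroup (Fin d) ℂ) := by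
  let e : (Matrix (Fin d) (Fin d) ℂ)ˣ ≃* (Module.End ℂ (Fin d → ℂ))ˣ :=
    Units.mapEquiv (Matrix.toLinAlgEquiv' (R := ℂ) (n := Fin d)).toMulEquiv
  apply NoCube.of_injective e.toMonoidHom e.injective
  apply noCube_units
  rw [Module.finrank_fintype_fun_eq_card, Fintype.card_fin]
  exact hn

section

variable {ι : Type} [DecidableEq ι] [Fintype ι]

lemma fin_order_of_range {A H : Type} [Group A] [Group H] (ρ : A →* H) (hρ : Finite ρ.range)
    (y : A) : IsOfFinOrder (ρ y) := by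
  have h1 : IsOfFinOrder (⟨ρ y, y, rfl⟩ : ρ.range) := isOfFinOrder_of_finite _
  exact MonoidHom.isOfFinOrder ρ.range.subtype h1

/-- Subgroups for which the rest of `IA` is detected by representations of small degree contain
some `N₁(M)`. -/
theorem N1_le_of_lin {Γ : Subgroup (MulAut (FreeGroup ι))} (hfi : Γ.FiniteIndex)
    (hinn : ∀ g, MulAut.conj g ∈ Γ)
    (h : ∀ x : IA (FreeGroup ι), (x : MulAut (FreeGroup ι)) ∉ Γ →
      ∃ d, d < 2 ^ (Fintype.card ι - 3 + 1) ∧
        ∃ ρ : IA (FreeGroup ι) →* Matrix.GeneralLinearGroup (Fin d) ℂ,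
          Finite ρ.range ∧ ρ x ≠ 1) : ∃ M, 0 < M ∧ N1 ι M ≤ Γ := by
  have hcore : (Γ.normalCore).FiniteIndex := inferInstance
  refine ⟨(Γ.normalCore).index, Nat.pos_of_ne_zero hcore.index_ne_zero, ?_⟩
  refine le_trans ?_ (Subgroup.normalCore_le Γ)
  apply N1_le
  refine ⟨Nat.pos_of_ne_zero hcore.index_ne_zero, ?_, ?_, ?_⟩
  · intro g b
    have e : b * MulAut.conj g * b⁻¹ = MulAut.conj (b g) := by
      rw [mul_inv_eq_iff_eq_mul]
      ext x
      simp [MulAut.conj_apply]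
    rw [e]
    exact hinn _
  · intro i j k hij hik b
    by_contra hcon
    have hz : b * cc i ⁅of j, of k⁆ * b⁻¹ ∈ IA (FreeGroup ι) :=
      (IA_normal (FreeGroup ι)).conj_mem _ (cc_mem_IA _ _) b
    obtain ⟨d, hd, ρ, hρ, hne⟩ := h ⟨_, hz⟩ hcon
    apply hne
    have hIN : (IA (FreeGroup ι)).Normal := IA_normal _
    have hr : Finite (twist b ρ).range := by
      have h1 : (twist b ρ).range ≤ ρ.range := by
        rintro _ ⟨y, rfl⟩
        exact ⟨_, rfl⟩
      exact Finite.of_injective _ (Subgroup.inclusion_injective h1)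
    have h1 := cck_of_fin (Γ := IA (FreeGroup ι)) le_rfl (twist b ρ) (noCube_complex hd) hij hik (by
      rw [← map_commutatorElement, RR_apply le_rfl _ i _ (cc_mem_IA _ _)]
      exact fin_order_of_range _ hr _)
    rw [← map_commutatorElement, RR_apply le_rfl _ i _ (cc_mem_IA _ _)] at h1
    exact h1
  · intro i j hij
    exact Subgroup.pow_index_mem _ _

end

/-- **Congruence subgroups of small index in the Torelli group.** -/
theorem main_csp {n : ℕ} (hn : 3 ≤ n) (Γ : Subgroup (MulAut (FreeGroup (Fin n))))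
    (hfi : Γ.FiniteIndex) (hinn : ∀ g, MulAut.conj g ∈ Γ)
    (h : Γ.relIndex (IA (FreeGroup (Fin n))) ≤ 2 ^ (n - 2) ∨
      ∀ x : IA (FreeGroup (Fin n)), (x : MulAut (FreeGroup (Fin n))) ∉ Γ →
      ∃ d, d < 2 ^ (n - 2) ∧
        ∃ ρ : IA (FreeGroup (Fin n)) →* Matrix.GeneralLinearGroup (Fin d) ℂ,
          Finite ρ.range ∧ ρ x ≠ 1) :
    ∃ K : Subgroup (FreeGroup (Fin n)), K.Characteristic ∧ K.FiniteIndex ∧
      (∀ x y z : FreeGroup (Fin n), ⁅⁅x, y⁆, z⁆ ∈ K) ∧
      ∀ ψ : MulAut (FreeGroup (Fin n)),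
        (∃ g : FreeGroup (Fin n), ∀ x : FreeGroup (Fin n), ψ x * (g * x * g⁻¹)⁻¹ ∈ K) → ψ ∈ Γ := by
  obtain ⟨k, rfl⟩ : ∃ k, n = k + 3 := ⟨n - 3, by omega⟩
  have e1 : k + 3 - 2 = Fintype.card (Fin (k + 3)) - 3 + 1 := by
    rw [Fintype.card_fin]; omega
  have hN : ∃ M, 0 < M ∧ N1 (Fin (k + 3)) M ≤ Γ := by
    rw [e1] at h
    rcases h with h | h
    · exact exists_N1_le Γ hinn h
    · exact N1_le_of_lin hfi hinn h
  obtain ⟨M, hM, hle⟩ := hN
  have : NeZero M := ⟨hM.ne'⟩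
  have : NeZero (4 * M) := ⟨by omega⟩
  refine ⟨VK (Fin (k + 3)) (HM M), inferInstance, VK_finite, VK_class2, ?_⟩
  intro ψ hψ
  exact hle (cong_N1 hM hψ)

end Pool.Agent.Helper460_CSP
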