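import Pool.Agent.Helper460_CSP.Jo3

set_option autoImplicit false
set_option linter.unusedSectionVars false
set_option linter.unusedSimpArgs false
set_option linter.unusedVariables false
set_option linter.unnecessarySeqFocus false

namespace Pool.Agent.Helper460_CSP

open Pool.Agent.Helper460_OutF
open FreeGroup (of)
open Matrix hiding of zpow_neg
open Pool.Agent.Helper156.OF (SP toAut toAut_gl gl nv gl_nv gl_true Lt SP.map_nv)
open scoped commutatorElement

variable {ι : Type} [DecidableEq ι] [Fintype ι]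

lemma IA_nice : Nice (IA (FreeGroup ι)) :=
  ⟨fun i w => cc_mem_IA i w, fun i u v => rr_comm_mem_IA i u v, le_rfl⟩

lemma GG_col {K : Subgroup (MulAut (FreeGroup ι))} [hKn : K.Normal] (hK : Nice K) {S : Finset ι}
    {y : MulAut (FreeGroup ι)} (hy : y ∈ GG K S) {k : ι} (hk : k ∉ S) :
    ac y (Pi.single k 1) = (Pi.single k 1 : ι → ℤ) := by
  unfold GG at hy
  induction hy using Subgroup.closure_induction with
  | mem x hx =>
    rcases hx with (⟨i, hi, j, hj, hij, ε, hε, rfl⟩ | ⟨σ, hσ, rfl⟩) | hx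
    · apply ac_Ea_zero hij
      apply Pi.single_eq_of_ne
      intro h
      exact hk (h ▸ hi)
    · rw [ac_toAut_single, WS_spi_out hσ hk, WS_sgs_out hσ hk]
    · rw [ac_IA (hK.iam hx)]
  | one => rw [ac_one]
  | mul x y _ _ hx hy => rw [ac_mul, hy, hx]
  | inv x _ hx =>
    conv_lhs => rw [← hx]
    rw [← ac_mul, inv_mul_cancel, ac_one]

lemma orbit {S : Finset ι} {m : ι} (hm : m ∈ S) : ∀ (h : ℕ) (v : ι → ℤ), OKv S v → nrm v ≤ h →
    ∃ g ∈ GG (IA (FreeGroup ι)) S, ac g v = Pi.single m 1 := by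
  intro h
  induction h with
  | zero =>
    intro v hv hn
    obtain ⟨σ, hσ, h1⟩ := small_vec hv (by omega) hm
    refine ⟨(toAut σ)⁻¹, inv_mem (Subgroup.subset_closure (Or.inl (GenS_sp hσ))), ?_⟩
    rw [← h1, ← ac_mul, inv_mul_cancel, ac_one]
  | succ h ih =>
    intro v hv hn
    by_cases h2 : nrm v ≤ 1
    · obtain ⟨σ, hσ, h1⟩ := small_vec hv h2 hm
      refine ⟨(toAut σ)⁻¹, inv_mem (Subgroup.subset_closure (Or.inl (GenS_sp hσ))), ?_⟩
      rw [← h1, ← ac_mul, inv_mul_cancel, ac_one]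
    · obtain ⟨i, j, ε, hr⟩ := red_exists hv (by omega)
      obtain ⟨g, hg, h3⟩ := ih _ (hv.gen hr.gen) (by have := hr.lt; omega)
      refine ⟨g * Ea i j ε, mul_mem hg (Subgroup.subset_closure (Or.inl hr.gen)), ?_⟩
      rw [ac_mul, h3]

lemma mul_single_apply (A : Matrix ι ι ℤ) (i k : ι) : (A *ᵥ Pi.single i 1) k = A k i := by
  rw [mulVec_single_one]
  rfl

lemma row_of (A : Matrix ι ι ℤ) {k : ι} (h : ∀ i, A k i = (1 : Matrix ι ι ℤ) k i) (v : ι → ℤ) :
    (A *ᵥ v) k = v k := by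
  have h1 : (A *ᵥ v) k = ((1 : Matrix ι ι ℤ) *ᵥ v) k := by
    show ∑ i, A k i * v i = ∑ i, (1 : Matrix ι ι ℤ) k i * v i
    exact Finset.sum_congr rfl (fun i _ => by rw [h])
  rw [h1, one_mulVec]

lemma surj_aux : ∀ S : Finset ι, ∀ A B : Matrix ι ι ℤ, B * A = 1 →
    (∀ k, k ∉ S → A *ᵥ Pi.single k 1 = Pi.single k 1) →
    (∀ k, k ∉ S → ∀ v, (A *ᵥ v) k = v k) → ∃ β : MulAut (FreeGroup ι), mA β = A := by
  intro S
  induction S using Finset.induction_on with
  | empty =>
    intro A B hBA hcol hrow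
    refine ⟨1, ?_⟩
    rw [mA_one]
    ext i j
    rw [← mul_single_apply A j i, hcol j (Finset.notMem_empty _), Matrix.one_apply,
      Pi.single_apply]
  | insert m T hm ih =>
    intro A B hBA hcol hrow
    have hv : OKv (insert m T) (A *ᵥ Pi.single m 1) := by
      refine ⟨⟨B m, ?_⟩, fun k hk => ?_⟩
      · have h1 : B *ᵥ (A *ᵥ Pi.single m 1) = Pi.single m 1 := by
          rw [mulVec_mulVec, hBA, one_mulVec]
        have h2 := congrFun h1 m
        rw [Pi.single_eq_same] at h2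
        exact h2
      · rw [hrow k hk, Pi.single_eq_of_ne]
        intro h
        exact hk (h ▸ Finset.mem_insert_self m T)
    obtain ⟨g, hg, h1⟩ := orbit (Finset.mem_insert_self m T) _ _ hv le_rfl
    have h1' : mA g *ᵥ (A *ᵥ Pi.single m 1) = Pi.single m 1 := h1
    obtain ⟨A1, hA1⟩ : ∃ A1, A1 = mA g * A := ⟨_, rfl⟩
    have c1 : A1 *ᵥ Pi.single m 1 = Pi.single m 1 := by
      rw [hA1, ← mulVec_mulVec]
      exact h1'
    have c2 : ∀ k, k ∉ insert m T → A1 *ᵥ Pi.single k 1 = Pi.single k 1 := by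
      intro k hk
      rw [hA1, ← mulVec_mulVec, hcol k hk]
      exact GG_col IA_nice hg hk
    have c3 : ∀ k, k ∉ insert m T → ∀ v, (A1 *ᵥ v) k = v k := by
      intro k hk v
      rw [hA1, ← mulVec_mulVec, ← hrow k hk v]
      exact GG_out IA_nice hg hk _
    obtain ⟨a, ha⟩ : ∃ a : ι → ℤ, a = fun i => if i = m then 0 else - A1 m i := ⟨_, rfl⟩
    obtain ⟨A2, hA2⟩ : ∃ A2, A2 = A1 * mA (th m a) := ⟨_, rfl⟩
    have t1 : ∀ i, i ≠ m → mA (th m a) *ᵥ Pi.single i 1 = Pi.single i 1 + Pi.single m (a i) :=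
      fun i hi => ac_th_single hi a
    have t2 : mA (th m a) *ᵥ Pi.single m 1 = Pi.single m 1 := by
      have : ac (th m a) (Pi.single m 1) = Pi.single m 1 := by
        rw [ac_single, th_of, if_pos rfl, xv_of]
      exact this
    have t3 : ∀ k, k ≠ m → ∀ i, mA (th m a) k i = (1 : Matrix ι ι ℤ) k i := by
      intro k hk i
      rw [← mul_single_apply (mA (th m a)) i k]
      by_cases hi : i = m
      · subst hi
        rw [t2, Pi.single_apply, Matrix.one_apply]
      · rw [t1 i hi, Pi.add_apply, Pi.single_eq_of_ne hk, add_zero, Pi.single_apply,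
          Matrix.one_apply]
    have d1 : A2 *ᵥ Pi.single m 1 = Pi.single m 1 := by
      rw [hA2, ← mulVec_mulVec, t2, c1]
    have d2 : ∀ k, k ∉ T → A2 *ᵥ Pi.single k 1 = Pi.single k 1 := by
      intro k hk
      by_cases hkm : k = m
      · rw [hkm]; exact d1
      · have hk' : k ∉ insert m T := fun h => by
          rcases Finset.mem_insert.1 h with h | h
          · exact hkm h
          · exact hk h
        have hak : a k = 0 := by
          rw [ha]
          show (if k = m then 0 else - A1 m k) = 0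
          rw [if_neg hkm, ← mul_single_apply A1 k m, c2 k hk', Pi.single_eq_of_ne (Ne.symm hkm), neg_zero]
        rw [hA2, ← mulVec_mulVec, t1 k hkm, hak, Pi.single_zero, add_zero, c2 k hk']
    have d3 : ∀ k, k ∉ T → ∀ v, (A2 *ᵥ v) k = v k := by
      intro k hk v
      by_cases hkm : k = m
      · subst hkm
        apply row_of
        intro i
        rw [← mul_single_apply A2 i k]
        by_cases hi : i = k
        · subst hi
          rw [d1, Pi.single_eq_same, Matrix.one_apply_eq]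
        · have h5 : (Pi.single k (a i) : ι → ℤ) = a i • Pi.single k 1 := by
            rw [← Pi.single_smul, smul_eq_mul, mul_one]
          rw [hA2, ← mulVec_mulVec, t1 i hi, mulVec_add, h5, mulVec_smul, c1, Pi.add_apply,
            mul_single_apply, Pi.smul_apply, Pi.single_eq_same, smul_eq_mul, mul_one,
            Matrix.one_apply_ne (Ne.symm hi), ha]
          show A1 k i + (if i = k then 0 else - A1 k i) = 0
          rw [if_neg hi, add_neg_cancel]
      · have hk' : k ∉ insert m T := fun h => by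
          rcases Finset.mem_insert.1 h with h | h
          · exact hkm h
          · exact hk h
        rw [hA2, ← mulVec_mulVec, c3 k hk']
        exact row_of _ (t3 k hkm) v
    have hinv : (mA (th m a)⁻¹ * (B * mA g⁻¹)) * A2 = 1 := by
      rw [hA2, hA1]
      have e1 : mA g⁻¹ * mA g = (1 : Matrix ι ι ℤ) := by rw [← mA_mul, inv_mul_cancel, mA_one]
      have e2 : mA (th m a)⁻¹ * mA (th m a) = (1 : Matrix ι ι ℤ) := by
        rw [← mA_mul, inv_mul_cancel, mA_one]
      calc mA (th m a)⁻¹ * (B * mA g⁻¹) * (mA g * A * mA (th m a)) =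
          mA (th m a)⁻¹ * (B * ((mA g⁻¹ * mA g) * A)) * mA (th m a) := by
            simp only [Matrix.mul_assoc]
        _ = 1 := by rw [e1, Matrix.one_mul, hBA, Matrix.mul_one, e2]
    obtain ⟨β, hβ⟩ := ih A2 _ hinv d2 d3
    refine ⟨g⁻¹ * β * (th m a)⁻¹, ?_⟩
    have e1 : mA g⁻¹ * mA g = (1 : Matrix ι ι ℤ) := by rw [← mA_mul, inv_mul_cancel, mA_one]
    have e2 : mA (th m a) * mA (th m a)⁻¹ = (1 : Matrix ι ι ℤ) := by
      rw [← mA_mul, mul_inv_cancel, mA_one]
    rw [mA_mul, mA_mul, hβ, hA2, hA1]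
    calc mA g⁻¹ * (mA g * A * mA (th m a)) * mA (th m a)⁻¹ =
        (mA g⁻¹ * mA g) * A * (mA (th m a) * mA (th m a)⁻¹) := by
          simp only [Matrix.mul_assoc]
      _ = A := by rw [e1, e2, Matrix.one_mul, Matrix.mul_one]

/-- The surjectivity onto the special linear group. -/
theorem sl_surj (A : SpecialLinearGroup ι ℤ) : ∃ β : MulAut (FreeGroup ι), mA β = mt A := by
  apply surj_aux Finset.univ (mt A) (mt A⁻¹)
  · rw [← mt_mul, inv_mul_cancel, mt_one]
  · intro k hk
    exact absurd (Finset.mem_univ k) hk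
  · intro k hk
    exact absurd (Finset.mem_univ k) hk

variable (ι) in
/-- The normal closure of powers of elementary automorphisms. -/
def N2 (M : ℤ) : Subgroup (MulAut (FreeGroup ι)) :=
  Subgroup.normalClosure {x | ∃ i j, i ≠ j ∧ x = Ea i j M}

instance (M : ℤ) : (N2 ι M).Normal := Subgroup.normalClosure_normal

lemma mt_inv_of {β : MulAut (FreeGroup ι)} {A : SpecialLinearGroup ι ℤ} (h : mA β = mt A) :
    mA β⁻¹ = mt A⁻¹ := by
  calc mA β⁻¹ = mA β⁻¹ * (mt A * mt A⁻¹) := by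
        rw [← mt_mul, mul_inv_cancel, mt_one, Matrix.mul_one]
    _ = (mA β⁻¹ * mA β) * mt A⁻¹ := by rw [h, Matrix.mul_assoc]
    _ = mt A⁻¹ := by rw [← mA_mul, inv_mul_cancel, mA_one, Matrix.one_mul]

variable (ι) in
/-- Matrices which lift to `N2`. -/
def Pl (M : ℤ) : Subgroup (SpecialLinearGroup ι ℤ) where
  carrier := {A | ∃ β ∈ N2 ι M, mA β = mt A}
  mul_mem' := by
    rintro A B ⟨β, hβ, h1⟩ ⟨γ, hγ, h2⟩
    exact ⟨β * γ, mul_mem hβ hγ, by rw [mA_mul, h1, h2, mt_mul]⟩
  one_mem' := ⟨1, one_mem _, by rw [mA_one, mt_one]⟩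
  inv_mem' := by
    rintro A ⟨β, hβ, h1⟩
    exact ⟨β⁻¹, inv_mem hβ, mt_inv_of h1⟩

instance (M : ℤ) : (Pl ι M).Normal := by
  refine ⟨?_⟩
  rintro A ⟨β, hβ, h1⟩ B
  obtain ⟨γ, hγ⟩ := sl_surj B
  exact ⟨γ * β * γ⁻¹, (inferInstance : (N2 ι M).Normal).conj_mem _ hβ _, by
    rw [mA_mul, mA_mul, h1, hγ, mt_inv_of hγ, mt_mul, mt_mul]⟩

theorem El_lift {M : ℤ} {A : SpecialLinearGroup ι ℤ} (hA : A ∈ El ι M) :
    ∃ β ∈ N2 ι M, mA β = mt A := by
  have h1 : El ι M ≤ Pl ι M := by
    apply El_le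
    intro i j hij
    exact ⟨Ea j i M, Subgroup.subset_normalClosure ⟨j, i, hij.symm, rfl⟩, mA_Ea hij.symm M⟩
  exact h1 hA

end Pool.Agent.Helper460_CSP
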