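import Pool.Agent.Helper460_CSP.Men3

set_option autoImplicit false
set_option linter.unusedSectionVars false
set_option linter.unusedSimpArgs false
set_option linter.unusedVariables false
set_option linter.unnecessarySeqFocus false

namespace Pool.Agent.Helper460_CSP

open Matrix

section

variable {ι : Type} [DecidableEq ι] [Fintype ι]

/-- The action on vectors. -/
def av (A : SpecialLinearGroup ι ℤ) (v : ι → ℤ) : ι → ℤ := mt A *ᵥ v

lemma av_mul (A B : SpecialLinearGroup ι ℤ) (v : ι → ℤ) : av (A * B) v = av A (av B v) := by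
  unfold av
  rw [mulVec_mulVec, mt_mul]

lemma av_one (v : ι → ℤ) : av 1 v = v := by
  unfold av
  rw [mt_one, one_mulVec]

lemma av_inv (A : SpecialLinearGroup ι ℤ) {v w : ι → ℤ} (h : av A v = w) : av A⁻¹ w = v := by
  rw [← h, ← av_mul, inv_mul_cancel, av_one]

lemma av_tv (i j : ι) (h : i ≠ j) (t : ℤ) (v : ι → ℤ) (k : ι) :
    av (tv i j h t) v k = v k + if k = i then t * v j else 0 := by
  show ((transvection i j t) *ᵥ v) k = _
  unfold transvection
  rw [add_mulVec, one_mulVec, single_mulVec]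
  show v k + Function.update (0 : ι → ℤ) i (t * v j) k = _
  by_cases hk : k = i
  · subst hk; simp
  · simp [hk]

/-- Unimodular vectors. -/
def Uni (v : ι → ℤ) : Prop := ∃ r : ι → ℤ, ∑ k, r k * v k = 1

lemma Uni.av {v : ι → ℤ} (h : Uni v) (A : SpecialLinearGroup ι ℤ) : Uni (av A v) := by
  obtain ⟨r, hr⟩ := h
  refine ⟨r ᵥ* mt A⁻¹, ?_⟩
  show (r ᵥ* mt A⁻¹) ⬝ᵥ (mt A *ᵥ v) = 1
  rw [← dotProduct_mulVec, mulVec_mulVec, ← mt_mul, inv_mul_cancel, mt_one, one_mulVec]
  exact hr

variable (ι) in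
/-- The normal closure of the elementary matrices of level `M`. -/
def El (M : ℤ) : Subgroup (SpecialLinearGroup ι ℤ) :=
  Subgroup.normalClosure {x | ∃ (i j : ι) (h : i ≠ j), x = tv i j h M}

instance (M : ℤ) : (El ι M).Normal := Subgroup.normalClosure_normal

lemma tv_El {M : ℤ} (i j : ι) (h : i ≠ j) {t : ℤ} (ht : M ∣ t) : tv i j h t ∈ El ι M :=
  tv_mem (Subgroup.subset_normalClosure (show tv i j h M ∈ {x | ∃ (i j : ι) (h : i ≠ j),
    x = tv i j h M} from ⟨i, j, h, rfl⟩)) ht

lemma El_le {M : ℤ} {N : Subgroup (SpecialLinearGroup ι ℤ)} [hNn : N.Normal]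
    (hN : ∀ (i j : ι) (h : i ≠ j), tv i j h M ∈ N) : El ι M ≤ N := by
  apply Subgroup.normalClosure_le_normal
  rintro _ ⟨i, j, h, rfl⟩
  exact hN i j h

/-- Congruence of a matrix to the identity. -/
def Cgr (M : ℤ) (A : SpecialLinearGroup ι ℤ) : Prop :=
  ∀ i j, M ∣ mt A i j - (1 : Matrix ι ι ℤ) i j

lemma cgr_iff {M : ℤ} {A : SpecialLinearGroup ι ℤ} :
    Cgr M A ↔ A ∈ (SpecialLinearGroup.map (n := ι) (Int.castRingHom (ZMod M.natAbs))).ker := by
  rw [MonoidHom.mem_ker, Matrix.SpecialLinearGroup.ext_iff]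
  unfold Cgr
  apply forall_congr'; intro i
  apply forall_congr'; intro j
  have h1 : (SpecialLinearGroup.map (n := ι) (Int.castRingHom (ZMod M.natAbs)) A).1 i j =
      ((mt A i j : ℤ) : ZMod M.natAbs) := rfl
  have h2 : (1 : SpecialLinearGroup ι (ZMod M.natAbs)).1 i j =
      (((1 : Matrix ι ι ℤ) i j : ℤ) : ZMod M.natAbs) := by
    show (1 : Matrix ι ι (ZMod M.natAbs)) i j = _
    rw [one_apply, one_apply]
    split_ifs <;> simp
  rw [h1, h2, ← sub_eq_zero, ← Int.cast_sub, ZMod.intCast_zmod_eq_zero_iff_dvd, Int.natCast_natAbs,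
    abs_dvd]

lemma El_cgr {M : ℤ} {A : SpecialLinearGroup ι ℤ} (h : A ∈ El ι M) : Cgr M A := by
  rw [cgr_iff]
  refine El_le (N := (SpecialLinearGroup.map (n := ι) (Int.castRingHom (ZMod M.natAbs))).ker)
    ?_ h
  intro i j hij
  rw [← cgr_iff]
  intro r s
  show M ∣ transvection i j M r s - (1 : Matrix ι ι ℤ) r s
  unfold transvection
  rw [Matrix.add_apply, add_sub_cancel_left, Matrix.single_apply]
  split_ifs <;> simp

lemma Cgr.mul {M : ℤ} {A B : SpecialLinearGroup ι ℤ} (hA : Cgr M A) (hB : Cgr M B) :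
    Cgr M (A * B) := by
  rw [cgr_iff] at *
  exact mul_mem hA hB

lemma Cgr.inv {M : ℤ} {A : SpecialLinearGroup ι ℤ} (hA : Cgr M A) : Cgr M A⁻¹ := by
  rw [cgr_iff] at *
  exact inv_mem hA

/-- **The orbits of `El` on unimodular vectors.** -/
theorem El_trans (h3 : 3 ≤ Fintype.card ι) (m : ι) (M : ℤ) : ∀ (k : ℕ) (v : ι → ℤ),
    Uni v → M ∣ v m - 1 → (∀ s, s ≠ m → M ∣ v s) →
    (∑ s ∈ Finset.univ.erase m, (v s).natAbs = k) →
    ∃ ν ∈ El ι M, av ν v = Pi.single m 1 := by
  intro k
  induction k using Nat.strong_induction_on with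
  | _ k ih =>
  intro v hv hm hs hk
  -- a first step
  have hstep : ∀ (p s : ι), p ≠ m → s ≠ m → p ≠ s → v p ≠ 0 → v s ≠ 0 →
      (v s).natAbs ≤ (v p).natAbs → ∃ ν ∈ El ι M, av ν v = Pi.single m 1 := by
    intro p s hp hs' hps hp0 hs0 hle
    obtain ⟨ε, hε⟩ : ∃ ε : ℤ, (v p + ε * v s).natAbs < (v p).natAbs := by
      rcases lt_or_gt_of_ne hp0 with h1 | h1 <;> rcases lt_or_gt_of_ne hs0 with h2 | h2
      · exact ⟨-1, by omega⟩
      · exact ⟨1, by omega⟩
      · exact ⟨1, by omega⟩
      · exact ⟨-1, by omega⟩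
    have hg : ∀ k, av (tv p s hps ε) v k = v k + if k = p then ε * v s else 0 :=
      av_tv p s hps ε v
    obtain ⟨ν, hν, h5⟩ := ih (∑ t ∈ Finset.univ.erase m, (av (tv p s hps ε) v t).natAbs) (by
      rw [← hk]
      apply Finset.sum_lt_sum
      · intro t ht
        rw [hg]
        by_cases htp : t = p
        · subst htp
          rw [if_pos rfl]
          exact hε.le
        · rw [if_neg htp, add_zero]
      · refine ⟨p, Finset.mem_erase.2 ⟨hp, Finset.mem_univ _⟩, ?_⟩
        rw [hg, if_pos rfl]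
        exact hε) (av (tv p s hps ε) v) (hv.av _) (by
      rw [hg, if_neg (Ne.symm hp), add_zero]
      exact hm) (by
      intro t ht
      rw [hg]
      by_cases htp : t = p
      · rw [if_pos htp]
        exact (hs t ht).add ((hs s hs').mul_left ε)
      · rw [if_neg htp, add_zero]
        exact hs t ht) rfl
    refine ⟨(tv p s hps ε)⁻¹ * ν * (tv p s hps ε), ?_, ?_⟩
    · have := (inferInstance : (El ι M).Normal).conj_mem ν hν (tv p s hps ε)⁻¹
      rwa [inv_inv] at this
    · rw [av_mul, av_mul, h5]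
      apply av_inv
      ext t
      rw [av_tv]
      simp [Ne.symm hs', hs']
  by_cases hex : ∃ p s, p ≠ m ∧ s ≠ m ∧ p ≠ s ∧ v p ≠ 0 ∧ v s ≠ 0
  · obtain ⟨p, s, h1, h2, h4, h5, h6⟩ := hex
    rcases le_total (v s).natAbs (v p).natAbs with h7 | h7
    · exact hstep p s h1 h2 h4 h5 h6 h7
    · exact hstep s p h2 h1 h4.symm h6 h5 h7
  · push Not at hex
    -- at most one nonzero entry `p`
    obtain ⟨p, hpm, hp⟩ : ∃ p, p ≠ m ∧ ∀ s, s ≠ m → s ≠ p → v s = 0 := by
      by_cases h1 : ∃ p, p ≠ m ∧ v p ≠ 0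
      · obtain ⟨p, hp1, hp2⟩ := h1
        exact ⟨p, hp1, fun s h2 h4 => hex p s hp1 h2 (Ne.symm h4) hp2⟩
      · push Not at h1
        have : Nontrivial ι := Fintype.one_lt_card_iff_nontrivial.1 (by omega)
        obtain ⟨p, hp⟩ := exists_ne m
        exact ⟨p, hp, fun s h2 _ => h1 s h2⟩
    obtain ⟨q, hq⟩ : ∃ q, q ∉ ({m, p} : Finset ι) := by
      by_contra hcon
      push Not at hcon
      have h1 : (Finset.univ : Finset ι) ⊆ {m, p} := fun x _ => hcon x
      have h2 := Finset.card_le_card h1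
      have h4 := Finset.card_le_two (a := m) (b := p)
      rw [Finset.card_univ] at h2
      omega
    rw [Finset.mem_insert, Finset.mem_singleton, not_or] at hq
    obtain ⟨hqm', hqp⟩ := hq
    have hqm : q ≠ m := hqm'
    obtain ⟨w, hw⟩ := hm
    obtain ⟨d, hd⟩ := hs p hpm
    obtain ⟨r, hr⟩ := hv
    have hsum : r m * v m + r p * v p = 1 := by
      rw [← hr, ← Finset.add_sum_erase _ _ (Finset.mem_univ m),
        ← Finset.add_sum_erase _ _ (Finset.mem_erase.2 ⟨hpm, Finset.mem_univ p⟩)]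
      rw [Finset.sum_eq_zero, add_zero]
      intro s hs2
      rw [Finset.mem_erase, Finset.mem_erase] at hs2
      rw [hp s hs2.2.1 hs2.1, mul_zero]
    let g1 := tv q m hqm M
    let g2 := tv m p hpm.symm (-w * (r p * M))
    let g3 := tv m q hqm.symm (-w * r m)
    let g4 := tv p m hpm (-(M * d))
    let g5 := tv q m hqm (-(M * v m))
    have hfix : av (g3 * g2)⁻¹ (Pi.single m 1) = Pi.single m 1 := by
      apply av_inv
      rw [av_mul]
      have e2 : av g2 (Pi.single m 1) = Pi.single m 1 := by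
        ext t
        rw [av_tv]
        simp [hpm]
      rw [e2]
      ext t
      rw [av_tv]
      simp [hqm]
    refine ⟨(g3 * g2)⁻¹ * (g5 * g4) * (g3 * g2) * g1, ?_, ?_⟩
    · apply mul_mem _ (tv_El q m hqm (dvd_refl M))
      have h6 : g5 * g4 ∈ El ι M := mul_mem (tv_El q m hqm ((dvd_mul_right M _).neg_right))
        (tv_El p m hpm ((dvd_mul_right M _).neg_right))
      have := (inferInstance : (El ι M).Normal).conj_mem _ h6 (g3 * g2)⁻¹
      rwa [inv_inv] at this
    · rw [av_mul, av_mul, av_mul, av_mul g5 g4, av_mul g3 g2]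
      have hvm : v m = 1 + M * w := by linear_combination hw
      have hvq : v q = 0 := hp q hqm hqp
      have e1 : ∀ k, av g1 v k = v k + if k = q then M * v m else 0 := av_tv _ _ _ _ _
      have e2 : ∀ k, av g2 (av g1 v) k = av g1 v k + if k = m then (-w * (r p * M)) * av g1 v p else 0 :=
        av_tv _ _ _ _ _
      have e3 : ∀ k, av g3 (av g2 (av g1 v)) k = av g2 (av g1 v) k +
          if k = m then (-w * r m) * av g2 (av g1 v) q else 0 := av_tv _ _ _ _ _
      have hm1 : av g3 (av g2 (av g1 v)) m = 1 := by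
        rw [e3, e2, e2, e1, e1, e1]
        simp only [if_true, if_neg hqm.symm, if_neg (Ne.symm hqp), if_neg hqm]
        rw [hd, hvq]
        have h7 : r m * v m + r p * (M * d) = 1 := by rw [← hd]; exact hsum
        linear_combination hvm - M * w * h7
      have hq1 : av g3 (av g2 (av g1 v)) q = M * v m := by
        rw [e3, e2, e1]
        simp only [if_true, if_neg hqm]
        rw [hvq]; ring
      have hp1 : av g3 (av g2 (av g1 v)) p = M * d := by
        rw [e3, e2, e1]
        simp only [if_true, if_neg hpm, if_neg (Ne.symm hqp)]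
        rw [hd]; ring
      have ho1 : ∀ s, s ≠ m → s ≠ p → s ≠ q → av g3 (av g2 (av g1 v)) s = 0 := by
        intro s h7 h8 h9
        rw [e3, e2, e1]
        simp only [if_neg h7, if_neg h9]
        rw [hp s h7 h8]; ring
      have e4 : ∀ k, av g4 (av g3 (av g2 (av g1 v))) k = av g3 (av g2 (av g1 v)) k +
          if k = p then (-(M * d)) * av g3 (av g2 (av g1 v)) m else 0 := av_tv _ _ _ _ _
      have e5 : ∀ k, av g5 (av g4 (av g3 (av g2 (av g1 v)))) k =
          av g4 (av g3 (av g2 (av g1 v))) k +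
          if k = q then (-(M * v m)) * av g4 (av g3 (av g2 (av g1 v))) m else 0 := av_tv _ _ _ _ _
      have hfin : av g5 (av g4 (av g3 (av g2 (av g1 v)))) = Pi.single m 1 := by
        ext s
        rw [e5, e4, e4, hm1]
        simp only [if_neg (Ne.symm hpm), add_zero, mul_one]
        by_cases h7 : s = m
        · subst h7
          rw [hm1, if_neg (Ne.symm hpm), if_neg (Ne.symm hqm), Pi.single_eq_same]
          ring
        · by_cases h8 : s = p
          · subst h8
            rw [hp1, if_pos rfl, if_neg (Ne.symm hqp), Pi.single_eq_of_ne h7]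
            ring
          · by_cases h9 : s = q
            · subst h9
              rw [hq1, if_pos rfl, if_neg hqp, Pi.single_eq_of_ne h7]
              ring
            · rw [ho1 s h7 h8 h9, if_neg h8, if_neg h9, Pi.single_eq_of_ne h7]
              ring
      rw [hfin, hfix]

end

end Pool.Agent.Helper460_CSP
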